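import Mathlib

open MeasureTheory Set Module
open scoped RealInnerProductSpace ENNReal

namespace Pool.Agent.Lib.MP_ad3614_gt

abbrev E (n : ℕ) := EuclideanSpace ℝ (Fin n)

theorem prism {n : ℕ} (ξ g : E n) (hξ : ‖ξ‖ = 1) (S P : Set (E n)) (hP : MeasurableSet P)
    (hS : ∀ z ∈ S, ⟪ξ, z⟫ = 0) (h : ∀ z ∈ S, ∀ θ ∈ Icc (-1 : ℝ) 1, z + θ • g ∈ P) :
    μHE[n - 1] S * ENNReal.ofReal (2 * |⟪ξ, g⟫|) ≤ volume P := by
  have hξ0 : ξ ≠ 0 := by
    intro h0
    rw [h0, norm_zero] at hξ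
    exact zero_ne_one hξ
  have key := EuclideanGeometry.euclideanHausdorffMeasure_eq_lintegral (0 : E n) hξ0 hP
  rw [InnerProductSpace.euclideanHausdorffMeasure_eq_volume, finrank_euclideanSpace_fin] at key
  have h1 : ‖ξ‖ₑ = 1 := by rw [← ofReal_norm, hξ, ENNReal.ofReal_one]
  rw [key, h1, one_mul]
  set γ := ⟪ξ, g⟫ with hγ
  by_cases hγ0 : γ = 0
  · simp [hγ0]
  have hvol : volume (Icc (-|γ|) |γ|) = ENNReal.ofReal (2 * |γ|) := by
    rw [Real.volume_Icc]; congr 1; ring
  rw [← hvol, ← setLIntegral_const]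
  refine le_trans ?_ (setLIntegral_le_lintegral (Icc (-|γ|) |γ|) _)
  refine setLIntegral_mono' measurableSet_Icc fun x hx => ?_
  have hθ : x / γ ∈ Icc (-1 : ℝ) 1 := by
    rw [mem_Icc, ← abs_le, abs_div, div_le_one (abs_pos.2 hγ0), abs_le]
    exact hx
  have hiso : Isometry (fun z : E n => z + (x / γ) • g) := isometry_add_right _
  rw [← hiso.euclideanHausdorffMeasure_image S]
  refine measure_mono ?_
  rintro _ ⟨z, hz, rfl⟩
  refine ⟨h z hz _ hθ, ?_⟩
  simp only [SetLike.mem_coe, AffineSubspace.mem_mk', vadd_eq_add, add_zero, vsub_eq_sub]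
  rw [Submodule.mem_orthogonal_singleton_iff_inner_right, inner_sub_right, inner_add_right,
    hS z hz, inner_smul_right, inner_smul_right, ← hγ, real_inner_self_eq_norm_sq, hξ]
  field_simp
  ring

theorem volume_box {n : ℕ} (lo hi : Fin n → ℝ) :
    volume {y : E n | ∀ l, lo l ≤ y l ∧ y l ≤ hi l} = ∏ l, ENNReal.ofReal (hi l - lo l) := by
  have h := (PiLp.volume_preserving_ofLp (Fin n)).measure_preimage
    (s := Set.pi univ fun l => Icc (lo l) (hi l))
    (MeasurableSet.univ_pi fun l => measurableSet_Icc).nullMeasurableSet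
  rw [volume_pi_pi] at h
  simp only [Real.volume_Icc] at h
  rw [← h]
  congr 1
  ext y
  simp only [mem_ofPred_eq, mem_preimage, mem_pi, mem_univ, mem_Icc, forall_const]

theorem volume_shear {n : ℕ} (t : Fin n) (v p : E n) (hv : v t = 0) (A : Set (E n)) :
    volume ((fun z : E n => (z - p) - ((z - p) t) • v) ⁻¹' A) = volume A := by
  let f : Dual ℝ (E n) := (EuclideanSpace.proj t : E n →L[ℝ] ℝ).toLinearMap
  have hdet : LinearMap.det (LinearMap.transvection f (-v)) = 1 := by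
    rw [LinearMap.transvection.det]
    simp [f, hv]
  have h1 := Measure.addHaar_preimage_linearMap (volume : Measure (E n))
    (f := LinearMap.transvection f (-v)) (by rw [hdet]; exact one_ne_zero) A
  rw [hdet] at h1
  simp only [inv_one, abs_one, ENNReal.ofReal_one, one_mul] at h1
  rw [← h1, ← measure_preimage_add_right volume (-p) (LinearMap.transvection f (-v) ⁻¹' A)]
  congr 1
  ext z
  simp [LinearMap.transvection, f, sub_eq_add_neg]

theorem volume_ellipsoid {n : ℕ} (lam : Fin n → ℝ) (hlam : ∀ l, 0 < lam l) :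
    volume {y : E n | ∑ l, (y l / lam l) ^ 2 ≤ n} ≤ ENNReal.ofReal (5 ^ n * ∏ l, lam l) := by
  have hm : MeasurableSet {y : Fin n → ℝ | ∑ l, (y l / lam l) ^ 2 ≤ n} :=
    measurableSet_le (by fun_prop) (by fun_prop)
  have h := (PiLp.volume_preserving_ofLp (Fin n)).measure_preimage hm.nullMeasurableSet
  have h0 : volume {y : E n | ∑ l, (y l / lam l) ^ 2 ≤ n} =
      volume {y : Fin n → ℝ | ∑ l, (y l / lam l) ^ 2 ≤ n} := by
    rw [← h]; rfl
  rw [h0]
  let f : Fin n → ℝ → ℝ := fun l x => Real.exp (1 / 2) * Real.exp (-(1 / (2 * lam l ^ 2)) * x ^ 2)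
  have hb : ∀ l, 0 < 1 / (2 * lam l ^ 2) := fun l => by have := hlam l; positivity
  have hf : ∀ l, Integrable (f l) := fun l => (integrable_exp_neg_mul_sq (hb l)).const_mul _
  have hint : Integrable (fun x : Fin n → ℝ => ∏ l, f l (x l)) := Integrable.fintype_prod hf
  have hnn : ∀ x : Fin n → ℝ, 0 ≤ ∏ l, f l (x l) :=
    fun x => Finset.prod_nonneg fun l _ => by simp only [f]; positivity
  have h2 : volume {y : Fin n → ℝ | ∑ l, (y l / lam l) ^ 2 ≤ n} ≤
      ENNReal.ofReal (∫ x : Fin n → ℝ, ∏ l, f l (x l)) := by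
    rw [ofReal_integral_eq_lintegral_ofReal hint (ae_of_all _ hnn), ← lintegral_indicator_one hm]
    refine lintegral_mono fun x => ?_
    by_cases hx : x ∈ {y : Fin n → ℝ | ∑ l, (y l / lam l) ^ 2 ≤ n}
    · rw [indicator_of_mem hx, Pi.one_apply, ENNReal.one_le_ofReal]
      simp only [f, ← Real.exp_add, ← Real.exp_sum]
      refine Real.one_le_exp ?_
      have e : ∀ l, 1 / 2 + -(1 / (2 * lam l ^ 2)) * x l ^ 2 = 1 / 2 - (1 / 2) * (x l / lam l) ^ 2 := by
        intro l
        have := (hlam l).ne'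
        field_simp
        ring
      simp only [e, Finset.sum_sub_distrib, ← Finset.mul_sum, Finset.sum_const, Finset.card_univ,
        Fintype.card_fin, nsmul_eq_mul]
      have : ∑ l, (x l / lam l) ^ 2 ≤ n := hx
      linarith
    · rw [indicator_of_notMem hx]; exact zero_le
  refine h2.trans (ENNReal.ofReal_le_ofReal ?_)
  rw [integral_fintype_prod_volume_eq_prod]
  have : (5 : ℝ) ^ n * ∏ l, lam l = ∏ l, 5 * lam l := by
    rw [Finset.prod_mul_distrib]; simp
  rw [this]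
  refine Finset.prod_le_prod (fun l _ => integral_nonneg fun x => by simp only [f]; positivity)
    fun l _ => ?_
  simp only [f]
  rw [integral_const_mul, integral_gaussian]
  have h3 : Real.exp (1 / 2) ≤ 5 / 3 := by
    have h4 : Real.exp (1 / 2) * Real.exp (1 / 2) = Real.exp 1 := by
      rw [← Real.exp_add]; norm_num
    have h5 := Real.exp_one_lt_d9
    nlinarith [Real.exp_pos (1 / 2 : ℝ)]
  have h6 : √(Real.pi / (1 / (2 * lam l ^ 2))) ≤ 3 * lam l := by
    have := hlam l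
    rw [Real.sqrt_le_left (by positivity)]
    have h7 := Real.pi_lt_four
    have : Real.pi / (1 / (2 * lam l ^ 2)) = 2 * Real.pi * lam l ^ 2 := by field_simp
    rw [this]
    nlinarith [sq_nonneg (lam l)]
  calc _ ≤ 5 / 3 * (3 * lam l) := mul_le_mul h3 h6 (Real.sqrt_nonneg _) (by norm_num)
    _ = 5 * lam l := by ring

theorem maurey {n : ℕ} (s : Set (E n)) (R : ℝ) (hs : ∀ p ∈ s, ‖p‖ ≤ R) (x : E n)
    (hx : x ∈ convexHull ℝ s) (m : ℕ) :
    ∃ p : Fin m → E n, (∀ k, p k ∈ s) ∧ ‖∑ k, (p k - x)‖ ^ 2 ≤ m * R ^ 2 := by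
  induction m with
  | zero => exact ⟨fun k => k.elim0, fun k => k.elim0, by simp⟩
  | succ m ih =>
    obtain ⟨p, hp, hb⟩ := ih
    set e := ∑ k, (p k - x) with he
    have h1 : ∃ q ∈ s, ⟪e + x, q⟫ ≤ ⟪e + x, x⟫ - 2 * ⟪x, x⟫ + 2 * ⟪x, q⟫ := by
      by_contra hcon
      push Not at hcon
      have hlin : IsLinearMap ℝ (fun q : E n => ⟪e - x, q⟫) :=
        ⟨fun a b => inner_add_right _ _ _, fun c a => by rw [inner_smul_right, smul_eq_mul]⟩
      have hsub : s ⊆ {q | ⟪e - x, x⟫ < ⟪e - x, q⟫} := by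
        intro q hq
        have := hcon q hq
        simp only [mem_ofPred_eq, inner_add_left, inner_sub_left] at this ⊢
        linarith
      have := convexHull_min hsub (convex_halfSpace_gt hlin _) hx
      simp at this
    obtain ⟨q, hq, hq2⟩ := h1
    refine ⟨Fin.cons q p, fun k => Fin.cases hq hp k, ?_⟩
    rw [Fin.sum_univ_succ]
    simp only [Fin.cons_zero, Fin.cons_succ]
    rw [← he]
    have h3 : ‖q‖ ^ 2 ≤ R ^ 2 := pow_le_pow_left₀ (norm_nonneg _) (hs q hq) 2
    rw [← real_inner_self_eq_norm_sq] at h3 hb ⊢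
    simp only [inner_add_left, inner_add_right, inner_sub_left, inner_sub_right] at hq2 ⊢
    have h4 : 0 ≤ ⟪x, x⟫ := real_inner_self_nonneg
    rw [real_inner_comm e q, real_inner_comm e x, real_inner_comm x q]
    push_cast
    linarith

theorem rpow_diff {a b p Q : ℝ} {n : ℕ} (hn : 2 ≤ n) (hp : p = ((n - 1 : ℕ) : ℝ) / n) (hb : 0 ≤ b)
    (hab : b ≤ a) (ha : 0 < a) (hQ : 0 < Q) (haQ : a ≤ Q ^ n) :
    (a - b) / (2 * Q) ≤ a ^ p - b ^ p := by
  have hn' : (2 : ℝ) ≤ n := by exact_mod_cast hn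
  have hp' : p = 1 - 1 / n := by
    rw [hp, Nat.cast_sub (by omega)]
    field_simp
    simp
  have hp2 : 1 / 2 ≤ p := by
    rw [hp']
    have : 1 / (n : ℝ) ≤ 1 / 2 := one_div_le_one_div_of_le (by norm_num) hn'
    linarith
  have hp1 : p ≤ 1 := by
    rw [hp']
    have : 0 ≤ 1 / (n : ℝ) := by positivity
    linarith
  have h1 := rpow_one_add_le_one_add_mul_self (s := b / a - 1)
    (by have : 0 ≤ b / a := by positivity
        linarith) (p := p) (by linarith) hp1
  have h2 : (1 + (b / a - 1)) = b / a := by ring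
  rw [h2, Real.div_rpow hb ha.le, div_le_iff₀ (by positivity)] at h1
  have h3 : a ^ (1 / (n : ℝ)) ≤ Q := by
    have := Real.rpow_le_rpow ha.le haQ (z := 1 / (n : ℝ)) (by positivity)
    rwa [one_div, Real.pow_rpow_inv_natCast hQ.le (by omega), ← one_div] at this
  have h4 : a ^ p = a / a ^ (1 / (n : ℝ)) := by
    rw [hp', Real.rpow_sub ha, Real.rpow_one]
  have h5 : 0 < a ^ (1 / (n : ℝ)) := by positivity
  have h6 : a / Q ≤ a ^ p := by
    rw [h4]
    exact div_le_div_of_nonneg_left ha.le h5 h3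
  have h7 : 0 ≤ 1 - b / a := by
    rw [sub_nonneg, div_le_one ha]; exact hab
  have h8 : (a - b) / (2 * Q) = 1 / 2 * (1 - b / a) * (a / Q) := by field_simp
  have h9 : 1 / 2 * (1 - b / a) * (a / Q) ≤ p * (1 - b / a) * a ^ p := by
    refine mul_le_mul (mul_le_mul_of_nonneg_right hp2 h7) h6 (by positivity) ?_
    exact mul_nonneg (by linarith) h7
  rw [h8]
  nlinarith

end Pool.Agent.Lib.MP_ad3614_gt
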