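import Pool.Agent.Lib.MP_ad3614_gt.Geo

open MeasureTheory Set Module
open scoped RealInnerProductSpace ENNReal Pointwise

namespace Pool.Agent.Lib.MP_ad3614_gt

namespace Cfg

variable {n : ℕ} (c : Cfg n)

noncomputable def lam0 (l : Fin n) : ℝ :=
  if l = c.t then 4 * c.σ * c.N else if l = c.u then c.U + 3 * c.σ * c.N else c.r
def B0 : Set (E n) := {y | ∀ l, |y l| ≤ c.lam0 l}
open Classical in
noncomputable def vs : Finset (E n) :=
  (Finset.range c.N).image c.w ∪ (Finset.range c.N).image fun i => -c.w i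
def K0 : Set (E n) := convexHull ℝ (c.vs : Set (E n)) + c.B0
def W (Λ : ℝ) (i : ℕ) : Set (E n) :=
  {z | 0 ≤ c.D i z ∧ ∀ l, l ≠ c.u → |c.Ψ i z l| ≤ c.ρ l * (1 + Λ * c.D i z)}
def K (Λ : ℝ) : Set (E n) := {z | z ∈ c.K0 ∧ ∀ i < c.N, z ∈ c.W Λ i ∧ -z ∈ c.W Λ i}
def L (Λ h : ℝ) : Set (E n) := {z | z ∈ c.K Λ ∧ ∀ i < c.N, h ≤ c.D i z ∧ h ≤ c.D i (-z)}

theorem σN_ge : 4 ≤ c.σ * c.N := by nlinarith [c.σ_ge, c.N_ge]

theorem r_le_lam0 (l : Fin n) : c.r ≤ c.lam0 l := by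
  have := c.σN_ge
  have := c.U_ge
  have := c.hr1
  unfold lam0
  split_ifs <;> linarith

theorem w_mem {i : ℕ} (hi : i < c.N) : c.w i ∈ c.vs ∧ -c.w i ∈ c.vs := by
  classical
  have := Finset.mem_range.2 hi
  exact ⟨Finset.mem_union_left _ (Finset.mem_image_of_mem _ this),
    Finset.mem_union_right _ (Finset.mem_image_of_mem (fun i => -c.w i) this)⟩

theorem smul_w_mem {i : ℕ} (hi : i < c.N) {s : ℝ} (hs : |s| ≤ 1) :
    s • c.w i ∈ convexHull ℝ (c.vs : Set (E n)) := by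
  have h1 := subset_convexHull ℝ (c.vs : Set (E n)) (c.w_mem hi).1
  have h2 := subset_convexHull ℝ (c.vs : Set (E n)) (c.w_mem hi).2
  have := convex_convexHull ℝ (c.vs : Set (E n)) h1 h2 (a := (1 + s) / 2) (b := (1 - s) / 2)
    (by linarith [(abs_le.1 hs).1]) (by linarith [(abs_le.1 hs).2]) (by ring)
  convert this using 1
  rw [smul_neg, ← sub_eq_add_neg, ← sub_smul]
  congr 1; ring

theorem vs_neg {x : E n} (hx : x ∈ c.vs) : -x ∈ c.vs := by
  classical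
  rcases Finset.mem_union.1 hx with h | h
  · obtain ⟨i, hi, rfl⟩ := Finset.mem_image.1 h
    exact (c.w_mem (Finset.mem_range.1 hi)).2
  · obtain ⟨i, hi, rfl⟩ := Finset.mem_image.1 h
    rw [neg_neg]
    exact (c.w_mem (Finset.mem_range.1 hi)).1

theorem vs_norm {x : E n} (hx : x ∈ c.vs) : ‖x‖ ≤ c.R := by
  classical
  rcases Finset.mem_union.1 hx with h | h
  · obtain ⟨i, hi, rfl⟩ := Finset.mem_image.1 h
    exact c.hwR i
  · obtain ⟨i, hi, rfl⟩ := Finset.mem_image.1 h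
    rw [norm_neg]; exact c.hwR i

theorem vs_card : c.vs.card ≤ 2 * c.N := by
  classical
  refine (Finset.card_union_le _ _).trans ?_
  have h1 := Finset.card_image_le (s := Finset.range c.N) (f := c.w)
  have h2 := Finset.card_image_le (s := Finset.range c.N) (f := fun i => -c.w i)
  rw [Finset.card_range] at h1 h2
  omega

theorem B0_compact : IsCompact c.B0 := by
  have h := (PiLp.homeomorph 2 fun _ : Fin n => ℝ).isCompact_preimage.2
    (isCompact_univ_pi fun l => isCompact_Icc (a := -c.lam0 l) (b := c.lam0 l))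
  convert h using 1
  ext y
  simp only [B0, mem_ofPred_eq, mem_preimage, mem_pi, mem_univ, mem_Icc, forall_const, abs_le]
  rfl

theorem B0_convex : Convex ℝ c.B0 := by
  intro x hx y hy a b ha hb hab l
  simp only [PiLp.add_apply, PiLp.smul_apply, smul_eq_mul]
  refine (abs_add_le _ _).trans ?_
  rw [abs_mul, abs_mul, abs_of_nonneg ha, abs_of_nonneg hb]
  calc _ ≤ a * c.lam0 l + b * c.lam0 l :=
        add_le_add (mul_le_mul_of_nonneg_left (hx l) ha) (mul_le_mul_of_nonneg_left (hy l) hb)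
    _ = _ := by rw [← add_mul, hab, one_mul]

theorem K0_compact : IsCompact c.K0 :=
  (c.vs.finite_toSet.isCompact_convexHull ℝ).add c.B0_compact

theorem K0_convex : Convex ℝ c.K0 := (convex_convexHull ℝ _).add c.B0_convex

theorem K0_neg {z : E n} (hz : z ∈ c.K0) : -z ∈ c.K0 := by
  obtain ⟨x, hx, y, hy, rfl⟩ := hz
  refine ⟨-x, ?_, -y, fun l => by simpa using hy l, by simp [add_comm]⟩
  have h : (c.vs : Set (E n)) ⊆ -convexHull ℝ (c.vs : Set (E n)) := fun p hp =>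
    subset_convexHull ℝ (c.vs : Set (E n)) (c.vs_neg hp)
  exact convexHull_min h (convex_convexHull ℝ _).neg hx

theorem D_comb (i : ℕ) (x y : E n) {a b : ℝ} (hab : a + b = 1) :
    c.D i (a • x + b • y) = a * c.D i x + b * c.D i y := by
  simp only [D, PiLp.add_apply, PiLp.smul_apply, smul_eq_mul]
  linear_combination (-c.b i) * hab

theorem Ψ_comb (i : ℕ) (x y : E n) {a b : ℝ} (hab : a + b = 1) (l : Fin n) :
    c.Ψ i (a • x + b • y) l = a * c.Ψ i x l + b * c.Ψ i y l := by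
  simp only [Ψ, PiLp.add_apply, PiLp.sub_apply, PiLp.smul_apply, smul_eq_mul]
  linear_combination (c.p i l - c.p i c.t * c.v i l) * hab

theorem W_convex (Λ : ℝ) (i : ℕ) : Convex ℝ (c.W Λ i) := by
  intro x hx y hy a b ha hb hab
  refine ⟨?_, fun l hl => ?_⟩
  · rw [c.D_comb i x y hab]
    exact add_nonneg (mul_nonneg ha hx.1) (mul_nonneg hb hy.1)
  · rw [c.D_comb i x y hab, c.Ψ_comb i x y hab]
    refine (abs_add_le _ _).trans ?_
    rw [abs_mul, abs_mul, abs_of_nonneg ha, abs_of_nonneg hb]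
    refine (add_le_add (mul_le_mul_of_nonneg_left (hx.2 l hl) ha)
      (mul_le_mul_of_nonneg_left (hy.2 l hl) hb)).trans (le_of_eq ?_)
    linear_combination (c.ρ l) * hab

theorem W_closed (Λ : ℝ) (i : ℕ) : IsClosed (c.W Λ i) := by
  have h1 := c.D_cont i
  have h2 := c.Ψ_cont i
  refine (isClosed_le continuous_const h1).inter ?_
  change IsClosed {z | ∀ l, l ≠ c.u → |c.Ψ i z l| ≤ c.ρ l * (1 + Λ * c.D i z)}
  simp only [ofPred_forall]
  exact isClosed_iInter fun l => isClosed_iInter fun _ => isClosed_le (by fun_prop) (by fun_prop)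

theorem K_convex (Λ : ℝ) : Convex ℝ (c.K Λ) := by
  intro x hx y hy a b ha hb hab
  refine ⟨c.K0_convex hx.1 hy.1 ha hb hab, fun i hi => ⟨?_, ?_⟩⟩
  · exact c.W_convex Λ i (hx.2 i hi).1 (hy.2 i hi).1 ha hb hab
  · have := c.W_convex Λ i (hx.2 i hi).2 (hy.2 i hi).2 ha hb hab
    rwa [smul_neg, smul_neg, ← neg_add] at this

theorem K_closed (Λ : ℝ) : IsClosed (c.K Λ) := by
  refine c.K0_compact.isClosed.inter ?_
  change IsClosed {z | ∀ i < c.N, z ∈ c.W Λ i ∧ -z ∈ c.W Λ i}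
  simp only [ofPred_forall]
  exact isClosed_iInter fun i => isClosed_iInter fun _ =>
    (c.W_closed Λ i).inter ((c.W_closed Λ i).preimage continuous_neg)

theorem K_compact (Λ : ℝ) : IsCompact (c.K Λ) :=
  c.K0_compact.of_isClosed_subset (c.K_closed Λ) fun _ hz => hz.1

theorem K_neg (Λ : ℝ) {z : E n} (hz : z ∈ c.K Λ) : -z ∈ c.K Λ :=
  ⟨c.K0_neg hz.1, fun i hi => ⟨(hz.2 i hi).2, by rw [neg_neg]; exact (hz.2 i hi).1⟩⟩

theorem L_convex (Λ h : ℝ) : Convex ℝ (c.L Λ h) := by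
  intro x hx y hy a b ha hb hab
  have e : h = a * h + b * h := by rw [← add_mul, hab, one_mul]
  refine ⟨c.K_convex Λ hx.1 hy.1 ha hb hab, fun i hi => ⟨?_, ?_⟩⟩
  · rw [c.D_comb i x y hab, e]
    exact add_le_add (mul_le_mul_of_nonneg_left (hx.2 i hi).1 ha)
      (mul_le_mul_of_nonneg_left (hy.2 i hi).1 hb)
  · rw [neg_add, ← smul_neg, ← smul_neg, c.D_comb i _ _ hab, e]
    exact add_le_add (mul_le_mul_of_nonneg_left (hx.2 i hi).2 ha)
      (mul_le_mul_of_nonneg_left (hy.2 i hi).2 hb)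

theorem L_closed (Λ h : ℝ) : IsClosed (c.L Λ h) := by
  refine (c.K_closed Λ).inter ?_
  change IsClosed {z | ∀ i < c.N, h ≤ c.D i z ∧ h ≤ c.D i (-z)}
  simp only [ofPred_forall]
  exact isClosed_iInter fun i => isClosed_iInter fun _ =>
    (isClosed_le continuous_const (c.D_cont i)).inter
      (isClosed_le continuous_const ((c.D_cont i).comp continuous_neg))

theorem L_compact (Λ h : ℝ) : IsCompact (c.L Λ h) :=
  (c.K_compact Λ).of_isClosed_subset (c.L_closed Λ h) fun _ hz => hz.1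

theorem L_neg (Λ h : ℝ) {z : E n} (hz : z ∈ c.L Λ h) : -z ∈ c.L Λ h :=
  ⟨c.K_neg Λ hz.1, fun i hi => ⟨(hz.2 i hi).2, by rw [neg_neg]; exact (hz.2 i hi).1⟩⟩

def Good (Λ : ℝ) : Prop :=
  0 < Λ ∧ ∀ z ∈ c.K0, ∀ i < c.N, ∀ l, |c.Ψ i z l| ≤ c.ρ l * (Λ * (c.ε * c.σ))

theorem exists_good : ∃ Λ, c.Good Λ := by
  have hc : 0 < c.ε * c.σ := mul_pos c.ε_pos c.σ_pos
  let f : E n → ℝ := fun z => ∑ i ∈ Finset.range c.N, ∑ l, |c.Ψ i z l| / (c.ρ l * (c.ε * c.σ))
  have hf : Continuous f := by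
    refine continuous_finsetSum _ fun i _ => continuous_finsetSum _ fun l _ => ?_
    have := c.Ψ_cont i
    fun_prop
  obtain ⟨M, hM⟩ := c.K0_compact.bddAbove_image hf.continuousOn
  refine ⟨max M 1, lt_max_of_lt_right one_pos, fun z hz i hi l => ?_⟩
  have h1 : f z ≤ max M 1 := (hM (mem_image_of_mem f hz)).trans (le_max_left _ _)
  have hp : ∀ i l, 0 ≤ |c.Ψ i z l| / (c.ρ l * (c.ε * c.σ)) := fun i l =>
    div_nonneg (abs_nonneg _) (mul_pos (c.ρ_pos l) hc).le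
  have h2 : |c.Ψ i z l| / (c.ρ l * (c.ε * c.σ)) ≤ f z :=
    (Finset.single_le_sum (fun l _ => hp i l) (Finset.mem_univ l)).trans
      (Finset.single_le_sum (f := fun i => ∑ l, |c.Ψ i z l| / (c.ρ l * (c.ε * c.σ)))
        (fun i _ => Finset.sum_nonneg fun l _ => hp i l) (Finset.mem_range.2 hi))
  have h3 := h2.trans h1
  rw [div_le_iff₀ (mul_pos (c.ρ_pos l) hc)] at h3
  linarith

theorem W_of_deep {Λ : ℝ} (hΛ : c.Good Λ) {z : E n} (hz : z ∈ c.K0) {i : ℕ} (hi : i < c.N)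
    (hD : c.ε * c.σ ≤ c.D i z) : z ∈ c.W Λ i := by
  refine ⟨(mul_pos c.ε_pos c.σ_pos).le.trans hD, fun l _ => (hΛ.2 z hz i hi l).trans ?_⟩
  refine mul_le_mul_of_nonneg_left ?_ (c.ρ_pos l).le
  linarith [mul_le_mul_of_nonneg_left hD hΛ.1.le]

theorem Sm_spec {h : ℝ} {j : ℕ} {z : E n} (hz : z ∈ c.Sm h j) :
    (∀ l, l ≠ c.u → |c.Ψ j z l| ≤ c.ρ l) ∧ 0 ≤ c.D j z ∧ c.D j z ≤ h / 2 ∧
      |z c.t - c.a j| ≤ c.σ := by
  obtain ⟨h1, h2, h3⟩ := c.mem_bx.1 hz
  rw [c.Ψ_u] at h2 h3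
  have h4 := h1 c.t c.htu
  rw [c.Ψ_t] at h4
  simp only [ρ, if_true] at h4
  exact ⟨h1, by linarith, by linarith, h4⟩

theorem Sm_t {h : ℝ} {j : ℕ} (hj : j < c.N) {z : E n} (hz : z ∈ c.Sm h j) :
    |z c.t| ≤ 4 * c.σ * c.N := by
  have h := (c.Sm_spec hz).2.2.2
  have hσ := c.σ_pos
  have hiN : (j : ℝ) + 1 ≤ c.N := by exact_mod_cast hj
  have hi0 : (0 : ℝ) ≤ j := by positivity
  rw [abs_le] at h ⊢
  unfold a at h
  constructor <;> nlinarith

theorem εt {i : ℕ} (hi : i < c.N) {x : ℝ} (hx : |x| ≤ 4 * c.σ * c.N) :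
    |c.ε * i * x| ≤ c.σ * c.N := by
  rw [abs_mul, abs_of_nonneg (mul_nonneg c.ε_pos.le (Nat.cast_nonneg i))]
  calc _ ≤ 1 / 4 * (4 * c.σ * c.N) := mul_le_mul (c.εi hi) hx (abs_nonneg _) (by norm_num)
    _ = _ := by ring

theorem b_bound {i : ℕ} (hi : i < c.N) : c.U ≤ c.b i ∧ c.b i ≤ c.U + c.σ * c.N := by
  have h1 := c.εi hi
  have h2 : (i : ℝ) ≤ c.N := by exact_mod_cast hi.le
  have h3 : (0 : ℝ) ≤ i := by positivity
  have h4 := c.σ_pos
  have h5 := c.ε_pos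
  unfold b
  constructor
  · have : 0 ≤ 2 * c.ε * c.σ * i ^ 2 := by positivity
    linarith
  · have h6 : c.σ * i ≤ c.σ * c.N := mul_le_mul_of_nonneg_left h2 h4.le
    have h7 : c.ε * i * (c.σ * i) ≤ 1 / 4 * (c.σ * c.N) :=
      mul_le_mul h1 h6 (by positivity) (by norm_num)
    nlinarith [c.σN_ge]

theorem Sm_K0 {h : ℝ} (hh1 : h ≤ 1) {j : ℕ} (hj : j < c.N) {z : E n} (hz : z ∈ c.Sm h j) :
    z ∈ c.K0 := by
  obtain ⟨h1, h2, h3, h4⟩ := c.Sm_spec hz
  refine ⟨((z c.t - c.a j) / c.σ) • c.w j, c.smul_w_mem hj ?_,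
    z - ((z c.t - c.a j) / c.σ) • c.w j, fun l => ?_, by simp⟩
  · rw [abs_div, abs_of_pos c.σ_pos, div_le_one c.σ_pos]; exact h4
  · by_cases ht : l = c.t
    · subst ht
      simpa [lam0, c.hwt] using c.Sm_t hj hz
    by_cases hu : l = c.u
    · subst hu
      simp only [lam0, ht, if_false, if_true, PiLp.sub_apply, PiLp.smul_apply, c.hwu, smul_zero,
        sub_zero]
      have h5 := abs_le.1 (c.εt hj (c.Sm_t hj hz))
      have h6 := c.b_bound hj
      have h7 := c.σN_ge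
      have h8 := c.U_ge
      unfold D at h2 h3
      rw [abs_le]
      constructor <;> linarith
    · have := h1 l hu
      rw [c.Ψ_l j z ht hu] at this
      simpa [lam0, ρ, ht, hu] using this

theorem D_other {h : ℝ} {i j : ℕ} (hij : i ≠ j) {z : E n} (hz : z ∈ c.Sm h j) :
    c.ε * c.σ ≤ c.D i z := by
  obtain ⟨-, h2, -, h4⟩ := c.Sm_spec hz
  have e : c.D i z = c.D j z + c.ε * ((i - j) * (2 * c.σ * (i - j) - (z c.t - c.a j))) := by
    unfold D b a; ring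
  have hσ := c.σ_pos
  have h5 : c.σ ≤ ((i : ℝ) - j) * (2 * c.σ * (i - j) - (z c.t - c.a j)) := by
    rw [abs_le] at h4
    rcases lt_or_gt_of_ne hij with hlt | hlt
    · have : (i : ℝ) + 1 ≤ j := by exact_mod_cast hlt
      have h6 : c.σ ≤ -(2 * c.σ * (i - j) - (z c.t - c.a j)) := by nlinarith
      nlinarith
    · have : (j : ℝ) + 1 ≤ i := by exact_mod_cast hlt
      have h6 : c.σ ≤ (2 * c.σ * (i - j) - (z c.t - c.a j)) := by nlinarith
      nlinarith
  rw [e]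
  linarith [mul_le_mul_of_nonneg_left h5 c.ε_pos.le]

theorem εσ_le : c.ε * c.σ ≤ c.σ * c.N := by
  nlinarith [c.ε_le, c.σ_pos, c.N_ge]

theorem D_neg {h : ℝ} (hh1 : h ≤ 1) {i j : ℕ} (hi : i < c.N) (hj : j < c.N) {z : E n}
    (hz : z ∈ c.Sm h j) : c.ε * c.σ ≤ c.D i (-z) := by
  obtain ⟨-, -, h3, -⟩ := c.Sm_spec hz
  have h5 := abs_le.1 (c.εt hj (c.Sm_t hj hz))
  have h6 := abs_le.1 (c.εt hi (c.Sm_t hj hz))
  have h7 := c.b_bound hi
  have h8 := c.b_bound hj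
  have h9 := c.σN_ge
  have h10 := c.U_ge
  have h11 := c.εσ_le
  unfold D at h3 ⊢
  simp only [PiLp.neg_apply]
  linarith

theorem Sm_K {Λ h : ℝ} (hΛ : c.Good Λ) (hh1 : h ≤ 1) {j : ℕ} (hj : j < c.N) {z : E n}
    (hz : z ∈ c.Sm h j) : z ∈ c.K Λ := by
  have h0 := c.Sm_K0 hh1 hj hz
  refine ⟨h0, fun i hi => ⟨?_, c.W_of_deep hΛ (c.K0_neg h0) hi (c.D_neg hh1 hi hj hz)⟩⟩
  by_cases hij : i = j
  · subst hij
    obtain ⟨h1, h2, -, -⟩ := c.Sm_spec hz
    refine ⟨h2, fun l hl => (h1 l hl).trans ?_⟩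
    have := mul_nonneg hΛ.1.le h2
    nlinarith [c.ρ_pos l]
  · exact c.W_of_deep hΛ h0 hi (c.D_other hij hz)

theorem L_interior {Λ h : ℝ} (hΛ : c.Good Λ) (hh : h ≤ c.ε * c.σ) :
    (interior (c.L Λ h)).Nonempty := by
  have hO : IsOpen {z : E n | ∀ l, |z l| < c.r} := by
    simp only [ofPred_forall]
    exact isOpen_iInter_of_finite fun l => isOpen_lt (by fun_prop) continuous_const
  have hD : ∀ z : E n, (∀ l, |z l| < c.r) → ∀ i < c.N, c.ε * c.σ ≤ c.D i z := by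
    intro z hz i hi
    have h1 := abs_lt.1 (hz c.u)
    have h2 := abs_le.1 (c.εt hi (x := z c.t) (by linarith [hz c.t, c.hr1, c.σN_ge]))
    have h7 := c.b_bound hi
    have h9 := c.σN_ge
    have h10 := c.U_ge
    have h11 := c.εσ_le
    have h12 := c.hr1
    unfold D
    linarith
  refine ⟨0, interior_maximal (fun z hz => ?_) hO fun l => by simpa using c.hr⟩
  have hz' : ∀ l, |(-z) l| < c.r := fun l => by simpa using hz l
  have h0 : z ∈ c.K0 := ⟨(0 : ℝ) • c.w 0, c.smul_w_mem c.hN (by simp), z,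
    fun l => (hz l).le.trans (c.r_le_lam0 l), by simp⟩
  exact ⟨⟨h0, fun i hi => ⟨c.W_of_deep hΛ h0 hi (hD z hz i hi),
    c.W_of_deep hΛ (c.K0_neg h0) hi (hD _ hz' i hi)⟩⟩,
    fun i hi => ⟨hh.trans (hD z hz i hi), hh.trans (hD _ hz' i hi)⟩⟩

theorem vol_gap {Λ h : ℝ} (hΛ : c.Good Λ) (hh0 : 0 < h) (hh1 : h ≤ 1) (hh : h ≤ c.ε * c.σ) :
    volume (c.L Λ h) + ENNReal.ofReal (c.N * c.V h) ≤ volume (c.K Λ) := by
  have hm : ∀ i, MeasurableSet (c.Sm h i) := fun i =>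
    ((c.bx_closed _ _).preimage (c.Ψ_cont i)).measurableSet
  have h1 : volume (⋃ i ∈ Finset.range c.N, c.Sm h i) = ENNReal.ofReal (c.N * c.V h) := by
    rw [measure_biUnion_finset _ fun i _ => hm i]
    · simp [c.vol_Sm hh0, ENNReal.ofReal_mul]
    · intro i _ j _ hij
      refine Set.disjoint_left.2 fun z hi hj => ?_
      have := c.D_other hij hj
      have := (c.Sm_spec hi).2.2.1
      linarith
  rw [← h1, ← measure_union _ (Finset.measurableSet_biUnion _ fun i _ => hm i)]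
  · refine measure_mono (union_subset (fun z hz => hz.1) ?_)
    intro z hz
    obtain ⟨i, hi, hz⟩ := mem_iUnion₂.1 hz
    exact c.Sm_K hΛ hh1 (Finset.mem_range.1 hi) hz
  · refine Set.disjoint_left.2 fun z hL hz => ?_
    obtain ⟨i, hi, hz⟩ := mem_iUnion₂.1 hz
    have := (hL.2 i (Finset.mem_range.1 hi)).1
    have := (c.Sm_spec hz).2.2.1
    linarith

theorem Sp_of {Λ h : ℝ} (hΛ : 0 ≤ Λ) {i : ℕ} {z : E n} (hz : z ∈ c.W Λ i) (hD : c.D i z < h) :
    z ∈ c.Sp h (1 + Λ * h) i := by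
  refine c.mem_bx.2 ⟨fun l hl => (hz.2 l hl).trans ?_, ?_, ?_⟩
  · refine mul_le_mul_of_nonneg_left ?_ (c.ρ_pos l).le
    linarith [mul_le_mul_of_nonneg_left hD.le hΛ]
  · rw [c.Ψ_u]; linarith
  · rw [c.Ψ_u]; linarith [hz.1]

theorem sec_gap {Λ h : ℝ} (hΛ : 0 ≤ Λ) (ξ : E n) :
    μHE[n - 1] (c.K Λ ∩ {z | ⟪ξ, z⟫ = 0}) ≤ μHE[n - 1] (c.L Λ h ∩ {z | ⟪ξ, z⟫ = 0}) +
      2 * ∑ i ∈ Finset.range c.N, μHE[n - 1] (c.Sp h (1 + Λ * h) i ∩ {z | ⟪ξ, z⟫ = 0}) := by
  set S : Set (E n) := ⋃ i ∈ Finset.range c.N, c.Sp h (1 + Λ * h) i ∩ {z | ⟪ξ, z⟫ = 0} with hS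
  have h1 : μHE[n - 1] S ≤
      ∑ i ∈ Finset.range c.N, μHE[n - 1] (c.Sp h (1 + Λ * h) i ∩ {z | ⟪ξ, z⟫ = 0}) :=
    measure_biUnion_finset_le _ _
  have h2 : μHE[n - 1] ((fun z => -z) '' S) = μHE[n - 1] S :=
    isometry_neg.euclideanHausdorffMeasure_image S
  have h3 : c.K Λ ∩ {z | ⟪ξ, z⟫ = 0} ⊆
      (c.L Λ h ∩ {z | ⟪ξ, z⟫ = 0}) ∪ (S ∪ (fun z => -z) '' S) := by
    rintro z ⟨hz, hz0⟩
    by_cases hL : z ∈ c.L Λ h
    · exact Or.inl ⟨hL, hz0⟩
    right
    have : ∃ i < c.N, c.D i z < h ∨ c.D i (-z) < h := by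
      by_contra hcon
      push Not at hcon
      exact hL ⟨hz, hcon⟩
    obtain ⟨i, hi, hD | hD⟩ := this
    · exact Or.inl (mem_iUnion₂.2 ⟨i, Finset.mem_range.2 hi, c.Sp_of hΛ (hz.2 i hi).1 hD, hz0⟩)
    · refine Or.inr ⟨-z, mem_iUnion₂.2 ⟨i, Finset.mem_range.2 hi,
        c.Sp_of hΛ (hz.2 i hi).2 hD, ?_⟩, neg_neg z⟩
      have : ⟪ξ, z⟫ = 0 := hz0
      simp [this]
  refine (measure_mono h3).trans ((measure_union_le _ _).trans (add_le_add le_rfl ?_))
  refine (measure_union_le _ _).trans ?_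
  rw [h2, two_mul]
  exact add_le_add h1 h1

theorem vol_K0 (m : ℕ) (hm : m * c.r ^ 2 = 1) (hR : c.R ^ 2 = 4 * n) (hn : 4 ≤ n)
    (hbig : (2 * c.N : ℝ) ^ m * ((c.U + 4 * c.σ * c.N + c.R) / c.r) ^ 2 ≤ 2 ^ n) :
    volume c.K0 ≤ ENNReal.ofReal ((50 * c.r) ^ n) := by
  classical
  have hr := c.hr
  have hr1 := c.hr1
  have hR0 := c.R_nonneg
  have hσN := c.σN_ge
  have hU := c.U_ge
  have hm0 : (0 : ℝ) < m := by
    rcases Nat.eq_zero_or_pos m with h | h
    · simp [h] at hm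
    · exact_mod_cast h
  have hn' : (4 : ℝ) ≤ n := by exact_mod_cast hn
  let lam : Fin n → ℝ := fun l => if l = c.t ∨ l = c.u then c.lam0 l + c.R else 5 * c.r
  have hlam : ∀ l, 0 < lam l := fun l => by
    simp only [lam]
    split_ifs
    · linarith [c.r_le_lam0 l]
    · linarith
  let El : Set (E n) := {y | ∑ l, (y l / lam l) ^ 2 ≤ n}
  let P : Finset (Fin m → E n) := Fintype.piFinset fun _ => c.vs
  have hcov : c.K0 ⊆ ⋃ p ∈ P, (fun z => z + -((m : ℝ)⁻¹ • ∑ k, p k)) ⁻¹' El := by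
    rintro _ ⟨x, hx, y, hy, rfl⟩
    obtain ⟨p, hp, hb⟩ := maurey _ c.R (fun p hp => c.vs_norm hp) x hx m
    refine mem_iUnion₂.2 ⟨p, Fintype.mem_piFinset.2 hp, ?_⟩
    set e : E n := x - (m : ℝ)⁻¹ • ∑ k, p k with he
    have he1 : ∑ k, (p k - x) = -(m : ℝ) • e := by
      rw [Finset.sum_sub_distrib, he, neg_smul, smul_sub, smul_smul, mul_inv_cancel₀ hm0.ne']
      simp [Nat.cast_smul_eq_nsmul]
    rw [he1, norm_smul, norm_neg, Real.norm_natCast, mul_pow] at hb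
    have he2 : ‖e‖ ^ 2 ≤ c.R ^ 2 * c.r ^ 2 := by
      have h1 : m * ‖e‖ ^ 2 ≤ c.R ^ 2 := by
        refine le_of_mul_le_mul_left ?_ hm0
        linarith
      have h2 := mul_le_mul_of_nonneg_right h1 (sq_nonneg c.r)
      calc ‖e‖ ^ 2 = m * ‖e‖ ^ 2 * c.r ^ 2 := by linear_combination (-‖e‖ ^ 2) * hm
        _ ≤ _ := h2
    have he3 : ‖e‖ ≤ c.R := by
      refine le_of_sq_le_sq (he2.trans ?_) hR0
      have : c.r ^ 2 ≤ 1 := pow_le_one₀ hr.le hr1
      nlinarith [sq_nonneg c.R]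
    have hz : x + y + -((m : ℝ)⁻¹ • ∑ k, p k) = y + e := by rw [he]; abel
    show ∑ l, ((x + y + -((m : ℝ)⁻¹ • ∑ k, p k)) l / lam l) ^ 2 ≤ n
    rw [hz]
    have hb : ∀ l, ((y + e) l / lam l) ^ 2 ≤ (if l = c.t then 1 else 0) + (if l = c.u then 1 else 0)
        + (2 * e l ^ 2 + 2 * c.r ^ 2) / (25 * c.r ^ 2) := by
      intro l
      have h0 : 0 ≤ (2 * e l ^ 2 + 2 * c.r ^ 2) / (25 * c.r ^ 2) := by positivity
      by_cases hl : l = c.t ∨ l = c.u
      · have h1 : ((y + e) l / lam l) ^ 2 ≤ 1 := by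
          rw [sq_le_one_iff_abs_le_one, abs_div, abs_of_pos (hlam l), div_le_one (hlam l)]
          simp only [lam, hl, if_true, PiLp.add_apply]
          exact (abs_add_le _ _).trans (add_le_add (hy l) ((PiLp.norm_apply_le e l).trans he3))
        have h2 : (1 : ℝ) ≤ (if l = c.t then 1 else 0) + (if l = c.u then 1 else 0) := by
          rcases hl with hl | hl <;> rw [if_pos hl] <;> split_ifs <;> norm_num
        linarith
      · have hl' := hl
        push Not at hl'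
        have h1 := hy l
        simp only [lam0, hl'.1, hl'.2, if_false] at h1
        simp only [lam, hl'.1, hl'.2, or_self, if_false, PiLp.add_apply, zero_add, div_pow]
        have h2 : y l ^ 2 ≤ c.r ^ 2 := sq_le_sq' (abs_le.1 h1).1 (abs_le.1 h1).2
        have h3 : (5 * c.r) ^ 2 = 25 * c.r ^ 2 := by ring
        rw [h3]
        refine div_le_div_of_nonneg_right ?_ (by positivity)
        nlinarith [sq_nonneg (y l - e l)]
    refine (Finset.sum_le_sum fun l _ => hb l).trans ?_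
    simp only [Finset.sum_add_distrib, Finset.sum_ite_eq', Finset.mem_univ, if_true,
      ← Finset.sum_div, ← Finset.mul_sum, ← EuclideanSpace.real_norm_sq_eq, Finset.sum_const,
      Finset.card_univ, Fintype.card_fin, nsmul_eq_mul]
    have h1 : (2 * ‖e‖ ^ 2 + 2 * (n * c.r ^ 2)) / (25 * c.r ^ 2) ≤ 2 / 5 * n := by
      rw [div_le_iff₀ (by positivity)]
      rw [hR] at he2
      linarith
    linarith
  set X := (c.U + 4 * c.σ * c.N + c.R) / c.r with hX
  have hprod : ∏ l, lam l ≤ (5 * c.r) ^ n * X ^ 2 := by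
    have hX1 : c.r * X = c.U + 4 * c.σ * c.N + c.R := by rw [hX]; field_simp
    calc _ ≤ ∏ l : Fin n, (5 * c.r * (if l = c.t then X else 1) * (if l = c.u then X else 1)) := by
          refine Finset.prod_le_prod (fun l _ => (hlam l).le) fun l _ => ?_
          by_cases ht : l = c.t
          · subst ht
            simp only [lam, lam0, true_or, if_true, c.htu, if_false]
            linarith
          by_cases hu : l = c.u
          · subst hu
            simp only [lam, lam0, or_true, if_true, ht, if_false]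
            linarith
          · simp [lam, ht, hu]
      _ = _ := by
          simp only [Finset.prod_mul_distrib, Finset.prod_ite_eq', Finset.mem_univ, if_true,
            Finset.prod_const, Finset.card_univ, Fintype.card_fin]
          ring
  have hcard : (P.card : ℝ) ≤ (2 * c.N) ^ m := by
    have : P.card ≤ (2 * c.N) ^ m := by
      rw [Fintype.card_piFinset]
      simp only [Finset.prod_const, Finset.card_univ, Fintype.card_fin]
      exact Nat.pow_le_pow_left c.vs_card m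
    exact_mod_cast this
  refine (measure_mono hcov).trans ((measure_biUnion_finset_le _ _).trans ?_)
  simp only [measure_preimage_add_right, Finset.sum_const, nsmul_eq_mul]
  refine (mul_le_mul_right (volume_ellipsoid lam hlam) _).trans ?_
  rw [← ENNReal.ofReal_natCast, ← ENNReal.ofReal_mul (by positivity)]
  refine ENNReal.ofReal_le_ofReal ?_
  calc _ ≤ (2 * c.N : ℝ) ^ m * (5 ^ n * ((5 * c.r) ^ n * X ^ 2)) := by
        refine mul_le_mul hcard (mul_le_mul_of_nonneg_left hprod (by positivity)) ?_ (by positivity)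
        exact mul_nonneg (by positivity) (Finset.prod_nonneg fun l _ => (hlam l).le)
    _ = ((2 * c.N : ℝ) ^ m * X ^ 2) * (5 ^ n * (5 * c.r) ^ n) := by ring
    _ ≤ 2 ^ n * (5 ^ n * (5 * c.r) ^ n) := mul_le_mul_of_nonneg_right hbig (by positivity)
    _ = _ := by rw [← mul_pow, ← mul_pow]; congr 1; ring

end Cfg

end Pool.Agent.Lib.MP_ad3614_gt
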