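import Pool.Agent.Lib.MP_ad3614_gt.Prob

open MeasureTheory Set Module
open scoped RealInnerProductSpace ENNReal Pointwise

namespace Pool.Agent.Lib.MP_ad3614_gt

structure Cfg (n : ℕ) where
  t : Fin n
  u : Fin n
  N : ℕ
  w : ℕ → E n
  R : ℝ
  σ : ℝ
  r : ℝ
  U : ℝ
  htu : t ≠ u
  hN : 1 ≤ N
  hwt : ∀ i, w i t = 0
  hwu : ∀ i, w i u = 0
  hwR : ∀ i, ‖w i‖ ≤ R
  hr : 0 < r
  hr1 : r ≤ 1
  hσ : 2 * R + 4 ≤ σ
  hU : 20 * σ * N + 4 * n * (R + 1) ≤ U

namespace Cfg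

variable {n : ℕ} (c : Cfg n)

noncomputable def ε : ℝ := 1 / (4 * c.N)
noncomputable def a (i : ℕ) : ℝ := 4 * c.σ * i
noncomputable def b (i : ℕ) : ℝ := c.U + 2 * c.ε * c.σ * i ^ 2
noncomputable def v (i : ℕ) : E n := c.σ⁻¹ • c.w i - EuclideanSpace.single c.u (c.ε * i)
noncomputable def p (i : ℕ) : E n :=
  EuclideanSpace.single c.t (c.a i) + EuclideanSpace.single c.u (c.b i - c.ε * i * c.a i)
noncomputable def Ψ (i : ℕ) (z : E n) : E n := (z - c.p i) - ((z - c.p i) c.t) • c.v i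
noncomputable def ρ (l : Fin n) : ℝ := if l = c.t then c.σ else c.r
noncomputable def cc (i : ℕ) : E n :=
  EuclideanSpace.single c.t c.σ - EuclideanSpace.single c.u (c.σ * c.ε * i)
noncomputable def D (i : ℕ) (z : E n) : ℝ := c.b i - z c.u - c.ε * i * z c.t

theorem R_nonneg : 0 ≤ c.R := (norm_nonneg _).trans (c.hwR 0)
theorem σ_ge : 4 ≤ c.σ := by linarith [c.hσ, c.R_nonneg]
theorem σ_pos : 0 < c.σ := by linarith [c.σ_ge]
theorem N_ge : (1 : ℝ) ≤ c.N := by exact_mod_cast c.hN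
theorem ε_pos : 0 < c.ε := by unfold ε; have := c.N_ge; positivity
theorem εN : c.ε * c.N = 1 / 4 := by unfold ε; have := c.N_ge; field_simp
theorem εi {i : ℕ} (hi : i < c.N) : c.ε * i ≤ 1 / 4 := by
  rw [← c.εN]
  exact mul_le_mul_of_nonneg_left (by exact_mod_cast hi.le) c.ε_pos.le
theorem ε_le : c.ε ≤ 1 / 4 := by nlinarith [c.εN, c.N_ge, c.ε_pos]
theorem ρ_pos (l : Fin n) : 0 < c.ρ l := by
  unfold ρ; split_ifs
  · exact c.σ_pos
  · exact c.hr
theorem w_abs (i : ℕ) (l : Fin n) : |c.w i l| ≤ c.R :=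
  (PiLp.norm_apply_le (c.w i) l).trans (c.hwR i)
theorem U_ge : 20 * c.σ * c.N ≤ c.U := by
  have : 0 ≤ 4 * n * (c.R + 1) := by have := c.R_nonneg; positivity
  linarith [c.hU]

theorem v_t (i : ℕ) : c.v i c.t = 0 := by simp [v, c.hwt, c.htu]
theorem Ψ_t (i : ℕ) (z : E n) : c.Ψ i z c.t = z c.t - c.a i := by
  simp [Ψ, c.v_t, p, c.htu]
theorem Ψ_u (i : ℕ) (z : E n) : c.Ψ i z c.u = -c.D i z := by
  simp [Ψ, v, p, c.hwu, c.htu, c.htu.symm, D]; ring
theorem Ψ_l (i : ℕ) (z : E n) {l : Fin n} (ht : l ≠ c.t) (hu : l ≠ c.u) :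
    c.Ψ i z l = z l - (z c.t - c.a i) / c.σ * c.w i l := by
  simp [Ψ, v, p, ht, hu, c.htu]; ring
theorem Ψ_add_G (i : ℕ) (z : E n) (θ : ℝ) :
    c.Ψ i (z + θ • (c.cc i + c.w i)) = c.Ψ i z + EuclideanSpace.single c.t (θ * c.σ) := by
  have hσ := c.σ_pos.ne'
  ext l
  by_cases ht : l = c.t
  · subst ht; simp [Ψ_t, cc, c.hwt, c.htu]; ring
  by_cases hu : l = c.u
  · subst hu; simp [Ψ_u, D, cc, c.hwt, c.hwu, c.htu, c.htu.symm]; ring
  simp [c.Ψ_l i _ ht hu, cc, ht, hu, c.hwt, c.htu]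
  field_simp
  ring
theorem Ψ_add_e (i : ℕ) (z : E n) (θ : ℝ) {l : Fin n} (hl : l ≠ c.t) :
    c.Ψ i (z + θ • EuclideanSpace.single l c.r) = c.Ψ i z + EuclideanSpace.single l (θ * c.r) := by
  ext m
  simp [Ψ, hl.symm]
  split_ifs <;> ring

theorem Ψ_cont (i : ℕ) : Continuous (c.Ψ i) := by unfold Ψ; fun_prop
theorem D_cont (i : ℕ) : Continuous (c.D i) := by unfold D; fun_prop

def bx (α : Fin n → ℝ) (k : ℝ) : Set (E n) :=
  {y | ∀ l, (if l = c.u then -k else -α l) ≤ y l ∧ y l ≤ (if l = c.u then 0 else α l)}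

theorem mem_bx {α : Fin n → ℝ} {k : ℝ} {y : E n} :
    y ∈ c.bx α k ↔ (∀ l, l ≠ c.u → |y l| ≤ α l) ∧ -k ≤ y c.u ∧ y c.u ≤ 0 := by
  constructor
  · intro h
    refine ⟨fun l hl => ?_, by simpa using h c.u⟩
    simpa [hl, abs_le] using h l
  · rintro ⟨h1, h2⟩ l
    by_cases hl : l = c.u
    · subst hl; simpa using h2
    · simpa [hl, abs_le] using h1 l hl

theorem bx_closed (α : Fin n → ℝ) (k : ℝ) : IsClosed (c.bx α k) := by
  unfold bx
  simp only [ofPred_forall]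
  refine isClosed_iInter fun l => ?_
  have hc : Continuous fun y : E n => y l := by fun_prop
  exact (isClosed_le continuous_const hc).inter (isClosed_le hc continuous_const)

theorem vol_bx (i : ℕ) (α : Fin n → ℝ) (k : ℝ) (hα : ∀ l, 0 ≤ α l) (hk : 0 ≤ k) :
    volume (c.Ψ i ⁻¹' c.bx α k) = ENNReal.ofReal (∏ l, if l = c.u then k else 2 * α l) := by
  have := volume_shear c.t (c.v i) (c.p i) (c.v_t i) (c.bx α k)
  unfold Ψ
  rw [this, bx, volume_box, ENNReal.ofReal_prod_of_nonneg]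
  · refine Finset.prod_congr rfl fun l _ => ?_
    split_ifs
    · simp
    · congr 1; ring
  · intro l _
    split_ifs
    · exact hk
    · linarith [hα l]

noncomputable def V (h : ℝ) : ℝ := ∏ l, if l = c.u then h / 2 else 2 * c.ρ l

theorem V_pos {h : ℝ} (hh : 0 < h) : 0 < c.V h :=
  Finset.prod_pos fun l _ => by
    split_ifs
    · linarith
    · linarith [c.ρ_pos l]

def Sm (h : ℝ) (i : ℕ) : Set (E n) := c.Ψ i ⁻¹' c.bx c.ρ (h / 2)
def Sp (h κ : ℝ) (i : ℕ) : Set (E n) := c.Ψ i ⁻¹' c.bx (fun l => c.ρ l * κ) h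

theorem vol_Sm {h : ℝ} (hh : 0 < h) (i : ℕ) : volume (c.Sm h i) = ENNReal.ofReal (c.V h) :=
  c.vol_bx i _ _ (fun l => (c.ρ_pos l).le) (by linarith)

theorem sec_dir {h κ : ℝ} (hh : 0 < h) (hκ : 1 ≤ κ) (hκ2 : κ ^ n ≤ 2) (i : ℕ) (ξ g : E n)
    (hξ : ‖ξ‖ = 1) (l₀ : Fin n) (hl₀ : l₀ ≠ c.u)
    (hg : ∀ z θ, c.Ψ i (z + θ • g) = c.Ψ i z + EuclideanSpace.single l₀ (θ * c.ρ l₀)) :
    μHE[n - 1] (c.Sp h κ i ∩ {z | ⟪ξ, z⟫ = 0}) * ENNReal.ofReal (2 * |⟪ξ, g⟫|) ≤
      ENNReal.ofReal (8 * c.V h) := by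
  let α : Fin n → ℝ := fun l => c.ρ l * κ * (if l = l₀ then 2 else 1)
  have hα : ∀ l, 0 ≤ α l := fun l => by
    have := c.ρ_pos l
    simp only [α]
    split_ifs <;> positivity
  refine (prism ξ g hξ _ (c.Ψ i ⁻¹' c.bx α h)
    ((c.bx_closed α h).preimage (c.Ψ_cont i)).measurableSet (fun z hz => hz.2) ?_).trans ?_
  · intro z hz θ hθ
    obtain ⟨h1, h2⟩ := c.mem_bx.1 hz.1
    rw [mem_preimage, hg, c.mem_bx]
    refine ⟨fun l hl => ?_, by simpa [hl₀.symm] using h2⟩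
    have h3 := h1 l hl
    have h4 := c.ρ_pos l
    by_cases hll : l = l₀
    · subst hll
      simp only [PiLp.add_apply, PiLp.single_apply, α, if_true]
      refine (abs_add_le _ _).trans ?_
      rw [abs_mul, abs_of_pos h4]
      have h5 : |θ| ≤ 1 := abs_le.2 hθ
      nlinarith
    · simpa [α, hll] using h3
  · rw [c.vol_bx i α h hα hh.le]
    refine ENNReal.ofReal_le_ofReal ?_
    calc _ ≤ ∏ l, ((if l = c.u then h / 2 else 2 * c.ρ l) * κ * (if l = c.u then 2 else 1) *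
            (if l = l₀ then 2 else 1)) := by
          refine Finset.prod_le_prod (fun l _ => ?_) fun l _ => ?_
          · split_ifs
            · exact hh.le
            · linarith [hα l]
          · by_cases hl : l = c.u
            · subst hl
              simp only [if_true, hl₀.symm, if_false]
              nlinarith
            · simp only [hl, if_false, α]
              apply le_of_eq; ring
      _ = c.V h * κ ^ n * 2 * 2 := by
          simp only [Finset.prod_mul_distrib, Finset.prod_ite_eq', Finset.mem_univ, if_true,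
            Finset.prod_const, Finset.card_univ, Fintype.card_fin, V]
      _ ≤ 8 * c.V h := by nlinarith [c.V_pos hh]

theorem le_of_mul_ofReal {m : ℝ≥0∞} {x y β V : ℝ} (_hV : 0 ≤ V) (hβ : 0 < β) (hy : β ≤ |y|)
    (h1 : m * ENNReal.ofReal (2 * |x|) ≤ ENNReal.ofReal (8 * V))
    (h2 : m * ENNReal.ofReal (2 * |y|) ≤ ENNReal.ofReal (8 * V)) :
    m ≤ ENNReal.ofReal (4 * V * psi β x) := by
  have hpos : 0 < max |x| β := hβ.trans_le (le_max_right _ _)
  have h3 : m * ENNReal.ofReal (2 * max |x| β) ≤ ENNReal.ofReal (8 * V) := by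
    rcases le_total |x| β with h | h
    · rw [max_eq_right h]
      refine le_trans ?_ h2
      gcongr
    · rwa [max_eq_left h]
  have h4 : 4 * V * psi β x = 8 * V / (2 * max |x| β) := by
    unfold psi; field_simp; ring
  rw [h4, ENNReal.ofReal_div_of_pos (by positivity), ENNReal.le_div_iff_mul_le]
  · exact h3
  · left; exact (ENNReal.ofReal_pos.2 (by positivity)).ne'
  · left; exact ENNReal.ofReal_ne_top

theorem sec_sum {h κ β A : ℝ} (hh : 0 < h) (hh1 : h ≤ 1) (hκ : 1 ≤ κ) (hκ2 : κ ^ n ≤ 2)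
    (hβ : 0 < β) (hβ2 : 4 * n * β ^ 2 ≤ c.r ^ 2) (hA1 : 1 ≤ A)
    (hA : ∀ ξ : E n, ‖ξ‖ = 1 → 1 / 2 ≤ ‖proj c.t c.u ξ‖ →
      ∑ i ∈ Finset.range c.N, psi β ⟪ξ, c.cc i + c.w i⟫ ≤ A * c.N) (ξ : E n) (hξ : ‖ξ‖ = 1) :
    ∑ i ∈ Finset.range c.N, μHE[n - 1] (c.Sp h κ i ∩ {z | ⟪ξ, z⟫ = 0}) ≤
      ENNReal.ofReal (4 * c.V h * A * c.N) := by
  have hV := c.V_pos hh
  have hn : 0 < n := Fin.pos c.t
  have hκ3 : κ ≤ 2 := (le_self_pow₀ hκ hn.ne').trans hκ2
  have hG : ∀ i, μHE[n - 1] (c.Sp h κ i ∩ {z | ⟪ξ, z⟫ = 0}) *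
      ENNReal.ofReal (2 * |⟪ξ, c.cc i + c.w i⟫|) ≤ ENNReal.ofReal (8 * c.V h) := fun i =>
    c.sec_dir hh hκ hκ2 i ξ _ hξ c.t c.htu fun z θ => by rw [c.Ψ_add_G]; simp [ρ]
  have hξl : ∀ l, |ξ l| ≤ 1 := fun l => by
    have := PiLp.norm_apply_le ξ l
    rwa [hξ, Real.norm_eq_abs] at this
  have hsplit : ∀ z : E n, ⟪ξ, z⟫ = ξ c.t * z c.t + ξ c.u * z c.u + ⟪proj c.t c.u ξ, z⟫ := by
    intro z
    have : ξ = EuclideanSpace.single c.t (ξ c.t) + EuclideanSpace.single c.u (ξ c.u) +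
        proj c.t c.u ξ := by
      ext l
      by_cases h1 : l = c.t
      · subst h1; simp [proj, c.htu]
      by_cases h2 : l = c.u
      · subst h2; simp [proj, c.htu.symm]
      simp [proj, h1, h2]
    conv_lhs => rw [this]
    simp [inner_add_left, EuclideanSpace.inner_single_left]
  by_cases hP : 1 / 2 ≤ ‖proj c.t c.u ξ‖
  · have hl : ∃ l, l ≠ c.t ∧ l ≠ c.u ∧ β ≤ |ξ l * c.r| := by
      by_contra hcon
      push Not at hcon
      have h1 : ∀ l, (proj c.t c.u ξ l) ^ 2 * c.r ^ 2 < β ^ 2 := by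
        intro l
        simp only [proj]
        split_ifs with hl
        · simpa using pow_pos hβ 2
        · push Not at hl
          rw [← mul_pow, ← sq_abs]
          exact pow_lt_pow_left₀ (hcon l hl.1 hl.2) (abs_nonneg _) two_ne_zero
      have h2 : ‖proj c.t c.u ξ‖ ^ 2 * c.r ^ 2 < n * β ^ 2 := by
        rw [EuclideanSpace.real_norm_sq_eq, Finset.sum_mul]
        calc _ < ∑ _l : Fin n, β ^ 2 :=
              Finset.sum_lt_sum_of_nonempty ⟨c.t, Finset.mem_univ _⟩ fun l _ => h1 l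
          _ = _ := by simp
      have h3 : 1 / 4 ≤ ‖proj c.t c.u ξ‖ ^ 2 := by nlinarith
      nlinarith [sq_nonneg c.r]
    obtain ⟨l, hlt, hlu, hl⟩ := hl
    have hE : ∀ i, μHE[n - 1] (c.Sp h κ i ∩ {z | ⟪ξ, z⟫ = 0}) *
        ENNReal.ofReal (2 * |ξ l * c.r|) ≤ ENNReal.ofReal (8 * c.V h) := fun i => by
      have := c.sec_dir hh hκ hκ2 i ξ (EuclideanSpace.single l c.r) hξ l hlu fun z θ => by
        rw [c.Ψ_add_e i z θ hlt]; simp [ρ, hlt]
      simpa [EuclideanSpace.inner_single_right, mul_comm] using this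
    calc _ ≤ ∑ i ∈ Finset.range c.N, ENNReal.ofReal (4 * c.V h * psi β ⟪ξ, c.cc i + c.w i⟫) :=
          Finset.sum_le_sum fun i _ => le_of_mul_ofReal hV.le hβ hl (hG i) (hE i)
      _ = ENNReal.ofReal (∑ i ∈ Finset.range c.N, 4 * c.V h * psi β ⟪ξ, c.cc i + c.w i⟫) := by
          rw [ENNReal.ofReal_sum_of_nonneg]
          intro i _
          exact mul_nonneg (by positivity) (psi_nonneg _)
      _ ≤ _ := by
          refine ENNReal.ofReal_le_ofReal ?_
          rw [← Finset.mul_sum, mul_assoc (4 * c.V h)]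
          exact mul_le_mul_of_nonneg_left (hA ξ hξ hP) (by positivity)
  push Not at hP
  by_cases ht : 1 / 2 ≤ |ξ c.t|
  · have hb : ∀ i ∈ Finset.range c.N, 1 ≤ |⟪ξ, c.cc i + c.w i⟫| := by
      intro i hi
      have h1 : ⟪ξ, c.cc i + c.w i⟫ =
          ξ c.t * c.σ - (ξ c.u * (c.σ * c.ε * i) - ⟪proj c.t c.u ξ, c.w i⟫) := by
        rw [inner_add_right, hsplit (c.w i), c.hwt, c.hwu]
        simp [cc, inner_sub_right, EuclideanSpace.inner_single_right]
        ring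
      have h2 : |⟪proj c.t c.u ξ, c.w i⟫| ≤ 1 / 2 * c.R :=
        (abs_real_inner_le_norm _ _).trans
          (mul_le_mul hP.le (c.hwR i) (norm_nonneg _) (by norm_num))
      have h3 : |ξ c.u * (c.σ * c.ε * i)| ≤ 1 * (c.σ * (1 / 4)) := by
        rw [abs_mul]
        have h4 := c.εi (Finset.mem_range.1 hi)
        have h5 : 0 ≤ c.σ * c.ε * i := by have := c.σ_pos; have := c.ε_pos; positivity
        refine mul_le_mul (hξl _) ?_ (abs_nonneg _) zero_le_one
        rw [abs_of_nonneg h5, mul_assoc]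
        exact mul_le_mul_of_nonneg_left h4 c.σ_pos.le
      have h4 : 1 / 2 * c.σ ≤ |ξ c.t * c.σ| := by
        rw [abs_mul, abs_of_pos c.σ_pos]
        exact mul_le_mul_of_nonneg_right ht c.σ_pos.le
      rw [h1]
      have h5 := abs_sub_abs_le_abs_sub (ξ c.t * c.σ)
        (ξ c.u * (c.σ * c.ε * i) - ⟪proj c.t c.u ξ, c.w i⟫)
      have h6 := abs_sub (ξ c.u * (c.σ * c.ε * i)) ⟪proj c.t c.u ξ, c.w i⟫
      linarith [c.hσ]
    calc _ ≤ ∑ i ∈ Finset.range c.N, ENNReal.ofReal (4 * c.V h * A) := by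
          refine Finset.sum_le_sum fun i hi => ?_
          refine (le_of_mul_ofReal hV.le one_pos (hb i hi) (hG i) (hG i)).trans ?_
          refine ENNReal.ofReal_le_ofReal (mul_le_mul_of_nonneg_left ?_ (by positivity))
          exact (psi_le one_pos _).trans (by simpa using hA1)
      _ = _ := by
          rw [Finset.sum_const, Finset.card_range, nsmul_eq_mul, mul_comm,
            ENNReal.ofReal_mul (p := 4 * c.V h * A) (by positivity), ENNReal.ofReal_natCast]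
  push Not at ht
  have hu : 1 / 2 ≤ |ξ c.u| := by
    have h1 := hsplit ξ
    rw [real_inner_self_eq_norm_sq, hξ] at h1
    have h2 : ⟪proj c.t c.u ξ, ξ⟫ ≤ 1 / 2 * 1 :=
      (real_inner_le_norm _ _).trans (mul_le_mul hP.le hξ.le (norm_nonneg _) (by norm_num))
    have h3 : ξ c.t * ξ c.t ≤ 1 / 4 := by
      rw [← abs_mul_abs_self]; nlinarith [abs_nonneg (ξ c.t)]
    refine le_of_sq_le_sq ?_ (abs_nonneg _)
    rw [sq_abs]
    nlinarith
  have hempty : ∀ i ∈ Finset.range c.N, c.Sp h κ i ∩ {z | ⟪ξ, z⟫ = 0} = ∅ := by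
    intro i hi
    have hi' := Finset.mem_range.1 hi
    rw [eq_empty_iff_forall_notMem]
    rintro z ⟨hz, hz0⟩
    obtain ⟨h1, h2, h3⟩ := c.mem_bx.1 hz
    have hσ := c.σ_pos
    have hR := c.R_nonneg
    have hN := c.N_ge
    have ht1 := h1 c.t c.htu
    rw [c.Ψ_t] at ht1
    simp only [ρ, if_true] at ht1
    have ht2 : |z c.t - c.a i| ≤ 2 * c.σ := ht1.trans (by nlinarith)
    have hiN : (i : ℝ) + 1 ≤ c.N := by exact_mod_cast hi'
    have hi0 : (0 : ℝ) ≤ i := by positivity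
    have ht3 : |z c.t| ≤ 4 * c.σ * c.N := by
      rw [abs_le] at ht2 ⊢
      unfold a at ht2
      constructor <;> nlinarith
    rw [c.Ψ_u] at h2
    have hzu : c.U - 1 - c.σ * c.N ≤ z c.u := by
      have h4 : c.ε * i * z c.t ≤ 1 / 4 * (4 * c.σ * c.N) :=
        (mul_le_mul_of_nonneg_left (le_abs_self _) (mul_nonneg c.ε_pos.le hi0)).trans
          (mul_le_mul (c.εi hi') ht3 (abs_nonneg _) (by norm_num))
      have h5 : 0 ≤ 2 * c.ε * c.σ * i ^ 2 := by have := c.ε_pos; positivity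
      unfold D b at h2
      linarith
    have hzl : |⟪proj c.t c.u ξ, z⟫| ≤ n * (2 * (c.R + 1)) := by
      rw [PiLp.inner_apply]
      refine (Finset.abs_sum_le_sum_abs _ _).trans ?_
      calc _ ≤ ∑ _l : Fin n, 2 * (c.R + 1) := by
            refine Finset.sum_le_sum fun l _ => ?_
            simp only [proj]
            split_ifs with hl
            · simp; linarith
            · push Not at hl
              have h4 := h1 l hl.2
              rw [c.Ψ_l i z hl.1 hl.2] at h4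
              simp only [ρ, hl.1, if_false] at h4
              have h5 : |(z c.t - c.a i) / c.σ * c.w i l| ≤ 2 * c.R := by
                rw [abs_mul, abs_div, abs_of_pos hσ]
                refine mul_le_mul ?_ (c.w_abs i l) (abs_nonneg _) (by norm_num)
                rw [div_le_iff₀ hσ]; exact ht2
              have h6 := abs_sub_abs_le_abs_sub (z l) ((z c.t - c.a i) / c.σ * c.w i l)
              have h7 : c.r * κ ≤ 1 * 2 := mul_le_mul c.hr1 hκ3 (by linarith) zero_le_one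
              have h8 : |z l| ≤ 2 * (c.R + 1) := by linarith
              simp only [RCLike.inner_apply, conj_trivial, abs_mul]
              calc _ ≤ 2 * (c.R + 1) * 1 := mul_le_mul h8 (hξl l) (abs_nonneg _) (by positivity)
                _ = _ := by ring
        _ = _ := by simp
    have h4 : ⟪ξ, z⟫ = 0 := hz0
    rw [hsplit] at h4
    have h5 : |ξ c.t * z c.t| ≤ 1 / 2 * (4 * c.σ * c.N) := by
      rw [abs_mul]
      exact mul_le_mul ht.le ht3 (abs_nonneg _) (by norm_num)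
    have hσN : 4 ≤ c.σ * c.N := by nlinarith [c.σ_ge]
    have h6 : 1 / 2 * (c.U - 1 - c.σ * c.N) ≤ |ξ c.u * z c.u| := by
      rw [abs_mul]
      exact mul_le_mul hu (hzu.trans (le_abs_self _)) (by linarith [c.U_ge]) (abs_nonneg _)
    have h7 : ξ c.u * z c.u = -(ξ c.t * z c.t + ⟪proj c.t c.u ξ, z⟫) := by linarith
    rw [h7, abs_neg] at h6
    have h8 := abs_add_le (ξ c.t * z c.t) ⟪proj c.t c.u ξ, z⟫
    linarith [c.hU]
  rw [Finset.sum_congr rfl fun i hi => by rw [hempty i hi]]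
  simp

end Cfg

end Pool.Agent.Lib.MP_ad3614_gt
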