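import Pool.Agent.Lib.MP_ad3614_gt.Body

open MeasureTheory Set Module
open scoped RealInnerProductSpace ENNReal Pointwise

namespace Pool.Agent.Lib.MP_ad3614_gt

theorem exists_normal {n : ℕ} (hn : 1 ≤ n) (F : Submodule ℝ (E n)) (hF : finrank ℝ F = n - 1) :
    ∃ ξ : E n, ‖ξ‖ = 1 ∧ (F : Set (E n)) = {z | ⟪ξ, z⟫ = 0} := by
  have h1 : finrank ℝ Fᗮ = 1 := by
    have := F.finrank_add_finrank_orthogonal
    rw [hF, finrank_euclideanSpace_fin] at this
    omega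
  have h2 : Fᗮ ≠ ⊥ := by
    intro h
    rw [h, finrank_bot] at h1
    exact zero_ne_one h1
  obtain ⟨x, hx, hx0⟩ := Submodule.exists_mem_ne_zero_of_ne_bot h2
  have hx1 : ‖x‖ ≠ 0 := norm_ne_zero_iff.2 hx0
  set ξ : E n := ‖x‖⁻¹ • x with hξ
  have hξ1 : ‖ξ‖ = 1 := by rw [hξ, norm_smul, norm_inv, norm_norm, inv_mul_cancel₀ hx1]
  have hξ0 : ξ ≠ 0 := by
    intro h; rw [h, norm_zero] at hξ1; exact zero_ne_one hξ1
  have h3 : (ℝ ∙ ξ) = Fᗮ := by
    refine Submodule.eq_of_le_of_finrank_eq ?_ ?_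
    · rw [Submodule.span_singleton_le_iff_mem]
      exact Fᗮ.smul_mem _ hx
    · rw [h1, finrank_span_singleton hξ0]
  refine ⟨ξ, hξ1, ?_⟩
  ext z
  rw [mem_ofPred_eq, ← Submodule.mem_orthogonal_singleton_iff_inner_right, h3,
    Submodule.orthogonal_orthogonal]
  rfl

theorem sec_finite {n : ℕ} (hn : 1 ≤ n) (F : Submodule ℝ (E n)) (hF : finrank ℝ F = n - 1)
    {K : Set (E n)} (hK : IsCompact K) : μHE[n - 1] (K ∩ F) < ∞ := by
  obtain ⟨ξ, hξ, hFξ⟩ := exists_normal hn F hF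
  obtain ⟨R, hR⟩ := hK.isBounded.subset_closedBall 0
  have h := prism ξ ξ hξ (K ∩ F) (Metric.closedBall 0 (R + 1)) measurableSet_closedBall
    (fun z hz => by have := hz.2; rwa [hFξ] at this) (fun z hz θ hθ => by
      have h1 := hR hz.1
      rw [mem_closedBall_zero_iff] at h1 ⊢
      refine (norm_add_le _ _).trans (add_le_add h1 ?_)
      rw [norm_smul, hξ, mul_one]
      exact abs_le.2 hθ)
  have h2 := h.trans_lt measure_closedBall_lt_top
  rw [real_inner_self_eq_norm_sq, hξ] at h2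
  refine lt_of_le_of_lt (le_mul_of_one_le_right' ?_) h2
  simp

theorem toReal_sub_le {a b : ℝ≥0∞} {M : ℝ} (hM : 0 ≤ M) (hba : b ≤ a)
    (h : a ≤ b + ENNReal.ofReal M) : a.toReal - b.toReal ≤ M := by
  by_cases hb : b = ∞
  · have : a = ∞ := top_unique (hb ▸ hba)
    simp [hb, this, hM]
  · have := ENNReal.toReal_mono (by finiteness) h
    rw [ENNReal.toReal_add hb ENNReal.ofReal_ne_top, ENNReal.toReal_ofReal hM] at this
    linarith

theorem Cfg.geo {n : ℕ} (c : Cfg n) (m : ℕ) (hm : m * c.r ^ 2 = 1) (hR : c.R ^ 2 = 4 * n)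
    (hn : 4 ≤ n)
    (hbig : (2 * c.N : ℝ) ^ m * ((c.U + 4 * c.σ * c.N + c.R) / c.r) ^ 2 ≤ 2 ^ n)
    {β A C : ℝ} (hβ : 0 < β) (hβ2 : 4 * n * β ^ 2 ≤ c.r ^ 2) (hA1 : 1 ≤ A)
    (hA : ∀ ξ : E n, ‖ξ‖ = 1 → 1 / 2 ≤ ‖proj c.t c.u ξ‖ →
      ∑ i ∈ Finset.range c.N, psi β ⟪ξ, c.cc i + c.w i⟫ ≤ A * c.N)
    (hC : 800 * C * A * c.r < 1) :
    ∃ K L : Set (E n), (IsCompact K ∧ Convex ℝ K ∧ (interior K).Nonempty ∧ K = -K) ∧
      (IsCompact L ∧ Convex ℝ L ∧ (interior L).Nonempty ∧ L = -L) ∧ L ⊆ K ∧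
      ∃ M : ℝ, (∀ F : Submodule ℝ (E n), finrank ℝ F = n - 1 →
        (μHE[n - 1] (K ∩ F)).toReal - (μHE[n - 1] (L ∩ F)).toReal ≤ M) ∧
        C * M < (volume K).toReal ^ (((n - 1 : ℕ) : ℝ) / n) -
          (volume L).toReal ^ (((n - 1 : ℕ) : ℝ) / n) := by
  obtain ⟨Λ, hΛ⟩ := c.exists_good
  have hΛ0 := hΛ.1
  have hn' : (4 : ℝ) ≤ n := by exact_mod_cast hn
  have hεσ : 0 < c.ε * c.σ := mul_pos c.ε_pos c.σ_pos
  set h : ℝ := min (min 1 (c.ε * c.σ)) (1 / (2 * n * Λ)) with hhdef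
  have hh0 : 0 < h := lt_min (lt_min one_pos hεσ) (by positivity)
  have hh1 : h ≤ 1 := (min_le_left _ _).trans (min_le_left _ _)
  have hh2 : h ≤ c.ε * c.σ := (min_le_left _ _).trans (min_le_right _ _)
  have hh3 : h ≤ 1 / (2 * n * Λ) := min_le_right _ _
  have hκ : 1 ≤ 1 + Λ * h := by linarith [mul_pos hΛ0 hh0]
  have hκ2 : (1 + Λ * h) ^ n ≤ 2 := by
    have h1 : (1 + Λ * h) ^ n ≤ Real.exp (n * (Λ * h)) := by
      rw [Real.exp_nat_mul]
      exact pow_le_pow_left₀ (by linarith) (by linarith [Real.add_one_le_exp (Λ * h)]) n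
    have h2 : n * (Λ * h) ≤ 1 / 2 := by
      rw [le_div_iff₀ (by positivity)] at hh3
      linarith
    have h3 := exp_half_le zero_le_one le_rfl
    linarith [Real.exp_le_exp.2 h2]
  have hV := c.V_pos hh0
  have hN := c.N_ge
  have hr := c.hr
  have hLK : c.L Λ h ⊆ c.K Λ := fun z hz => hz.1
  have hint := c.L_interior hΛ hh2
  refine ⟨c.K Λ, c.L Λ h, ⟨c.K_compact Λ, c.K_convex Λ, hint.mono (interior_mono hLK), ?_⟩,
    ⟨c.L_compact Λ h, c.L_convex Λ h, hint, ?_⟩, hLK, 8 * c.V h * A * c.N, fun F hF => ?_, ?_⟩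
  · ext z
    exact ⟨fun hz => c.K_neg Λ hz, fun hz => by simpa using c.K_neg Λ hz⟩
  · ext z
    exact ⟨fun hz => c.L_neg Λ h hz, fun hz => by simpa using c.L_neg Λ h hz⟩
  · obtain ⟨ξ, hξ, hFξ⟩ := exists_normal (by omega) F hF
    rw [hFξ]
    refine toReal_sub_le (by positivity) (measure_mono (inter_subset_inter_left _ hLK)) ?_
    refine (c.sec_gap (h := h) hΛ0.le ξ).trans (add_le_add le_rfl ?_)
    refine (mul_le_mul_right (c.sec_sum hh0 hh1 hκ hκ2 hβ hβ2 hA1 hA ξ hξ) 2).trans ?_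
    rw [← ENNReal.ofReal_ofNat 2, ← ENNReal.ofReal_mul (by norm_num)]
    exact ENNReal.ofReal_le_ofReal (le_of_eq (by ring))
  · have hKfin : volume (c.K Λ) ≠ ∞ := (c.K_compact Λ).measure_lt_top.ne
    have hLfin : volume (c.L Λ h) ≠ ∞ := (c.L_compact Λ h).measure_lt_top.ne
    have h1 := ENNReal.toReal_mono hKfin (c.vol_gap hΛ hh0 hh1 hh2)
    rw [ENNReal.toReal_add hLfin ENNReal.ofReal_ne_top,
      ENNReal.toReal_ofReal (by positivity)] at h1
    have h2 : (volume (c.K Λ)).toReal ≤ (50 * c.r) ^ n :=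
      ENNReal.toReal_le_of_le_ofReal (by positivity)
        ((measure_mono fun z hz => hz.1).trans (c.vol_K0 m hm hR hn hbig))
    have h3 : 0 < c.N * c.V h := by positivity
    have h4 : 0 ≤ (volume (c.L Λ h)).toReal := ENNReal.toReal_nonneg
    have h5 := rpow_diff (n := n) (by omega) rfl h4 (by linarith) (by linarith)
      (by positivity) h2
    refine lt_of_lt_of_le ?_ h5
    rw [lt_div_iff₀ (by positivity)]
    calc C * (8 * c.V h * A * c.N) * (2 * (50 * c.r)) = (800 * C * A * c.r) * (c.N * c.V h) := by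
          ring
      _ < 1 * (c.N * c.V h) := mul_lt_mul_of_pos_right hC h3
      _ ≤ _ := by linarith

theorem sq_le_two_pow {j : ℕ} (hj : 4 ≤ j) : j ^ 2 ≤ 2 ^ j := by
  induction j, hj using Nat.le_induction with
  | base => norm_num
  | succ j hj ih => rw [pow_succ 2 j]; nlinarith

theorem main (C : ℝ) : ∃ n : ℕ, 2 ≤ n ∧
    ∃ K L : Set (E n), (IsCompact K ∧ Convex ℝ K ∧ (interior K).Nonempty ∧ K = -K) ∧
      (IsCompact L ∧ Convex ℝ L ∧ (interior L).Nonempty ∧ L = -L) ∧ L ⊆ K ∧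
      ∃ M : ℝ, (∀ F : Submodule ℝ (E n), finrank ℝ F = n - 1 →
        (μHE[n - 1] (K ∩ F)).toReal - (μHE[n - 1] (L ∩ F)).toReal ≤ M) ∧
        C * M < (volume K).toReal ^ (((n - 1 : ℕ) : ℝ) / n) -
          (volume L).toReal ^ (((n - 1 : ℕ) : ℝ) / n) := by
  obtain ⟨j0, hj0⟩ := exists_nat_gt (9600 * 17 * C)
  set j := max j0 4 with hjdef
  have hj4 : 4 ≤ j := le_max_right _ _
  have hjC : 9600 * 17 * C < j := hj0.trans_le (by exact_mod_cast le_max_left _ _)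
  obtain ⟨μ, hμ⟩ : ∃ μ : ℕ, μ = 2 ^ j := ⟨_, rfl⟩
  have hjμ : j ^ 2 ≤ μ := hμ ▸ sq_le_two_pow hj4
  have hμ16 : 16 ≤ μ := by nlinarith
  have hx : (16 : ℝ) ≤ μ := by exact_mod_cast hμ16
  have hx0 : (0 : ℝ) < μ := by linarith
  have hx1 : (1 : ℝ) ≤ μ := by linarith
  have hn4 : 4 ≤ μ ^ 4 := le_trans (by omega) (Nat.le_self_pow (by norm_num) μ)
  let t : Fin (μ ^ 4) := ⟨0, by omega⟩
  let u : Fin (μ ^ 4) := ⟨1, by omega⟩
  have htu : t ≠ u := by simp [t, u]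
  have hβ : (1 / 2 : ℝ) ^ (3 * j + 1) = 1 / (2 * μ ^ 3) := by
    rw [hμ]; push_cast
    rw [one_div_pow, pow_succ, pow_mul']; ring
  have hβ' : (2 : ℝ) ^ (3 * j + 1) = 2 * μ ^ 3 := by
    rw [hμ]; push_cast
    rw [pow_succ, pow_mul']; ring
  have hN1 : 1 ≤ 146 * μ ^ 14 := by
    have : 1 ≤ μ ^ 14 := Nat.one_le_pow _ _ (by omega)
    omega
  have hp : ∀ a b : ℕ, a ≤ b → (μ : ℝ) ^ a ≤ μ ^ b := fun a b h => pow_le_pow_right₀ hx1 h
  obtain ⟨w, hw, hA⟩ := exists_vectors (n := μ ^ 4) (by omega) t u (3 * j + 1) (36 * μ ^ 7)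
    (146 * μ ^ 14) (by positivity)
    (fun i => EuclideanSpace.single t (8 * (μ : ℝ) ^ 2) - EuclideanSpace.single u
      (8 * (μ : ℝ) ^ 2 * (1 / (4 * ((146 * μ ^ 14 : ℕ) : ℝ))) * i))
    (1 / (36 * μ ^ 5)) (16 * μ ^ 2) (2 * μ ^ 2) (by positivity) (by push_cast; ring)
    (fun i hi => by
      refine (norm_sub_le _ _).trans ?_
      rw [PiLp.norm_single, PiLp.norm_single, Real.norm_of_nonneg (by positivity),
        Real.norm_of_nonneg (by positivity)]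
      have h1 : (i : ℝ) ≤ ((146 * μ ^ 14 : ℕ) : ℝ) := by exact_mod_cast hi.le
      have h2 : (0 : ℝ) < ((146 * μ ^ 14 : ℕ) : ℝ) := by positivity
      have h3 : 1 / (4 * ((146 * μ ^ 14 : ℕ) : ℝ)) * i ≤ 1 := by
        rw [div_mul_eq_mul_div, div_le_one (by positivity)]; linarith
      have h4 := mul_le_mul_of_nonneg_left h3 (show (0 : ℝ) ≤ 8 * μ ^ 2 by positivity)
      rw [mul_assoc (8 * (μ : ℝ) ^ 2)]
      linarith)
    (by positivity) (by push_cast; field_simp; exact le_rfl)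
    (by
      rw [div_le_div_iff₀ (by positivity) (by norm_num)]
      linarith [hp 0 5 (by norm_num), pow_zero (μ : ℝ)])
    (by rw [hβ]; apply le_of_eq; field_simp; ring)
    (by
      rw [hβ']; push_cast
      have := hp 7 14 (by norm_num)
      nlinarith)
  let c : Cfg (μ ^ 4) :=
    { t := t, u := u, N := 146 * μ ^ 14, w := w, R := 2 * μ ^ 2, σ := 8 * μ ^ 2, r := 1 / μ
      U := 24000 * μ ^ 16, htu := htu, hN := hN1, hwt := fun i => (hw i).1
      hwu := fun i => (hw i).2.1, hwR := fun i => (hw i).2.2, hr := by positivity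
      hr1 := by rw [div_le_one hx0]; exact hx1
      hσ := by nlinarith [hp 0 2 (by norm_num)]
      hU := by
        push_cast
        have := hp 6 16 (by norm_num)
        have := hp 4 16 (by norm_num)
        have : (0 : ℝ) ≤ μ ^ 16 := by positivity
        nlinarith }
  refine ⟨μ ^ 4, by omega, c.geo (μ ^ 2) ?_ ?_ hn4 ?_ (β := (1 / 2) ^ (3 * j + 1))
    (A := 12 * (1 + 4 * ((3 * j + 1 : ℕ) : ℝ))) (by positivity) ?_ ?_ hA ?_⟩
  · simp only [c]; push_cast; field_simp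
  · simp only [c]; push_cast; ring
  · simp only [c]
    have h1 : (2 * ((146 * μ ^ 14 : ℕ) : ℝ)) ≤ 2 ^ (9 + 14 * j) := by
      have : (2 : ℝ) ^ (9 + 14 * j) = 512 * μ ^ 14 := by
        rw [hμ]; push_cast
        rw [pow_add, pow_mul']; norm_num
      rw [this]; push_cast
      have : (0 : ℝ) ≤ μ ^ 14 := by positivity
      linarith
    have h2 : (24000 * (μ : ℝ) ^ 16 + 4 * (8 * μ ^ 2) * ((146 * μ ^ 14 : ℕ) : ℝ) + 2 * μ ^ 2) /
        (1 / μ) ≤ 2 ^ (15 + 17 * j) := by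
      have : (2 : ℝ) ^ (15 + 17 * j) = 32768 * μ ^ 17 := by
        rw [hμ]; push_cast
        rw [pow_add, pow_mul']; norm_num
      rw [this, div_div_eq_mul_div, div_one]; push_cast
      have := hp 3 17 (by norm_num)
      have : (0 : ℝ) ≤ μ ^ 17 := by positivity
      nlinarith
    calc _ ≤ ((2 : ℝ) ^ (9 + 14 * j)) ^ (μ ^ 2) * (2 ^ (15 + 17 * j)) ^ 2 :=
          mul_le_mul (pow_le_pow_left₀ (by positivity) h1 _)
            (pow_le_pow_left₀ (by positivity) h2 _) (by positivity) (by positivity)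
      _ = 2 ^ ((9 + 14 * j) * μ ^ 2 + (15 + 17 * j) * 2) := by
          rw [← pow_mul, ← pow_mul, ← pow_add]
      _ ≤ _ := by
          refine pow_le_pow_right₀ (by norm_num) ?_
          have h3 : 1 ≤ μ ^ 2 := Nat.one_le_pow _ _ (by omega)
          have h4 : 39 + 48 * j ≤ μ ^ 2 := by nlinarith
          nlinarith
  · simp only [c]
    rw [hβ]; push_cast
    apply le_of_eq; field_simp; ring
  · have : (0 : ℝ) ≤ ((3 * j + 1 : ℕ) : ℝ) := by positivity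
    linarith
  · simp only [c]
    have h1 : (4 : ℝ) ≤ j := by exact_mod_cast hj4
    have h2 : (j : ℝ) ^ 2 ≤ μ := by exact_mod_cast hjμ
    rw [mul_one_div, div_lt_one hx0]; push_cast
    rcases le_or_gt C 0 with hC | hC
    · nlinarith
    · nlinarith

end Pool.Agent.Lib.MP_ad3614_gt
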