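import Pool.Agent.Lib.MP_ad3614_gt.Basic

open MeasureTheory ProbabilityTheory Set Module
open scoped RealInnerProductSpace ENNReal

namespace Pool.Agent.Lib.MP_ad3614_gt

theorem greedy_pot {Ω H : Type*} [MeasurableSpace Ω] (μ : Measure Ω) [IsProbabilityMeasure μ]
    (q : Ω → ℝ) (hq : Integrable q μ) (hq0 : ∀ ω, 0 ≤ q ω) (hq1 : ∫ ω, q ω ∂μ ≤ 1 / 2)
    (s : Finset H) (f : ℕ → H → Ω → ℝ) (hf : ∀ i η, Integrable (f i η) μ)
    (hf0 : ∀ i η ω, 0 ≤ f i η ω) (a : ℝ) (ha : 0 < a) (hfa : ∀ i, ∀ η ∈ s, ∫ ω, f i η ω ∂μ ≤ a)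
    (N : ℕ) : ∃ ω : ℕ → Ω, (∀ i, q (ω i) ≤ 1) ∧
      ∑ η ∈ s, ∏ i ∈ Finset.range N, (1 + f i η (ω i)) ≤ s.card * (1 + 2 * a) ^ N := by
  classical
  induction N with
  | zero =>
    obtain ⟨x, hx⟩ := exists_le_integral hq
    exact ⟨fun _ => x, fun _ => by linarith, by simp⟩
  | succ N ih =>
    obtain ⟨ω, hω, hb⟩ := ih
    set W : H → ℝ := fun η => ∏ i ∈ Finset.range N, (1 + f i η (ω i)) with hW
    have hW0 : ∀ η, 0 ≤ W η := fun η => Finset.prod_nonneg fun i _ => by linarith [hf0 i η (ω i)]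
    set S : ℝ := s.card * (1 + 2 * a) ^ N with hS
    have hS0 : 0 ≤ S := by positivity
    have hint : Integrable (fun x => ∑ η ∈ s, W η * f N η x) μ :=
      integrable_finsetSum _ fun η _ => (hf N η).const_mul _
    have hI : ∫ x, ∑ η ∈ s, W η * f N η x ∂μ ≤ a * S := by
      rw [integral_finsetSum _ fun η _ => (hf N η).const_mul _]
      calc _ ≤ ∑ η ∈ s, W η * a := Finset.sum_le_sum fun η hη => by
              rw [integral_const_mul]
              exact mul_le_mul_of_nonneg_left (hfa N η hη) (hW0 η)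
        _ = a * ∑ η ∈ s, W η := by rw [← Finset.sum_mul, mul_comm]
        _ ≤ a * S := mul_le_mul_of_nonneg_left hb ha.le
    have hex : ∃ x, q x ≤ 1 ∧ ∑ η ∈ s, W η * f N η x ≤ 2 * a * S := by
      rcases hS0.eq_or_lt with h0 | hpos
      · have hs : s = ∅ := by
          rw [hS] at h0
          have : (s.card : ℝ) = 0 := by
            rcases mul_eq_zero.1 h0.symm with h | h
            · exact h
            · exact absurd h (by positivity)
          exact Finset.card_eq_zero.1 (by exact_mod_cast this)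
        exact ⟨ω 0, hω 0, by simp [hs, ← h0]⟩
      · obtain ⟨x, hx⟩ := exists_le_integral (hint.add (hq.const_mul (2 * a * S)))
        rw [integral_add' hint (hq.const_mul _), integral_const_mul] at hx
        simp only [Pi.add_apply] at hx
        have h1 : 0 ≤ ∑ η ∈ s, W η * f N η x :=
          Finset.sum_nonneg fun η _ => mul_nonneg (hW0 η) (hf0 _ _ _)
        have h2 : 0 < 2 * a * S := by positivity
        have h3 : 2 * a * S * ∫ x, q x ∂μ ≤ 2 * a * S * (1 / 2) :=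
          mul_le_mul_of_nonneg_left hq1 h2.le
        have h4 : 0 ≤ 2 * a * S * q x := mul_nonneg h2.le (hq0 x)
        refine ⟨x, ?_, by linarith⟩
        by_contra hc
        push Not at hc
        nlinarith
    obtain ⟨x, hx1, hx2⟩ := hex
    refine ⟨Function.update ω N x, fun i => ?_, ?_⟩
    · by_cases h : i = N
      · subst h; simpa using hx1
      · rw [Function.update_of_ne h]; exact hω i
    · have e : ∀ η, ∏ i ∈ Finset.range (N + 1), (1 + f i η (Function.update ω N x i)) =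
          W η + W η * f N η x := by
        intro η
        rw [Finset.prod_range_succ, Function.update_self]
        have : ∏ i ∈ Finset.range N, (1 + f i η (Function.update ω N x i)) = W η :=
          Finset.prod_congr rfl fun i hi => by
            rw [Function.update_of_ne (Finset.mem_range.1 hi).ne]
        rw [this]; ring
      simp only [e, Finset.sum_add_distrib]
      calc _ ≤ S + 2 * a * S := add_le_add hb hx2
        _ = _ := by rw [hS]; ring

theorem exp_half_le {x : ℝ} (h0 : 0 ≤ x) (h1 : x ≤ 1) : Real.exp (x / 2) ≤ 1 + x := by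
  have h2 := Real.one_sub_le_exp_neg (x / 2)
  have h3 : Real.exp (x / 2) * Real.exp (-(x / 2)) = 1 := by rw [← Real.exp_add]; simp
  have h4 := Real.exp_pos (x / 2)
  nlinarith [mul_le_mul_of_nonneg_left h2 h4.le, mul_nonneg h0 (sub_nonneg.2 h1)]

theorem greedy {Ω H : Type*} [MeasurableSpace Ω] (μ : Measure Ω) [IsProbabilityMeasure μ]
    (q : Ω → ℝ) (hq : Integrable q μ) (hq0 : ∀ ω, 0 ≤ q ω) (hq1 : ∫ ω, q ω ∂μ ≤ 1 / 2)
    (s : Finset H) (f : ℕ → H → Ω → ℝ) (hf : ∀ i η, Integrable (f i η) μ)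
    (hf0 : ∀ i η ω, 0 ≤ f i η ω) (hf1 : ∀ i η ω, f i η ω ≤ 1)
    (a : ℝ) (ha : 0 < a) (hfa : ∀ i, ∀ η ∈ s, ∫ ω, f i η ω ∂μ ≤ a)
    (N : ℕ) : ∃ ω : ℕ → Ω, (∀ i, q (ω i) ≤ 1) ∧
      ∀ η ∈ s, ∑ i ∈ Finset.range N, f i η (ω i) ≤ 2 * Real.log s.card + 4 * a * N := by
  obtain ⟨ω, hω, hb⟩ := greedy_pot μ q hq hq0 hq1 s f hf hf0 a ha hfa N
  refine ⟨ω, hω, fun η hη => ?_⟩
  have hc : (0 : ℝ) < s.card := by exact_mod_cast Finset.card_pos.2 ⟨η, hη⟩
  have h1 : ∏ i ∈ Finset.range N, (1 + f i η (ω i)) ≤ s.card * (1 + 2 * a) ^ N :=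
    (Finset.single_le_sum (f := fun η => ∏ i ∈ Finset.range N, (1 + f i η (ω i)))
      (fun η _ => Finset.prod_nonneg fun i _ => by linarith [hf0 i η (ω i)]) hη).trans hb
  have h2 : Real.exp ((∑ i ∈ Finset.range N, f i η (ω i)) / 2) ≤
      ∏ i ∈ Finset.range N, (1 + f i η (ω i)) := by
    rw [Finset.sum_div, Real.exp_sum]
    exact Finset.prod_le_prod (fun i _ => (Real.exp_pos _).le)
      fun i _ => exp_half_le (hf0 _ _ _) (hf1 _ _ _)
  have h3 : (1 + 2 * a) ^ N ≤ Real.exp (2 * a * N) := by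
    rw [mul_comm (2 * a), Real.exp_nat_mul]
    exact pow_le_pow_left₀ (by positivity) (by linarith [Real.add_one_le_exp (2 * a)]) N
  have h4 : Real.exp ((∑ i ∈ Finset.range N, f i η (ω i)) / 2) ≤
      Real.exp (Real.log s.card + 2 * a * N) := by
    rw [Real.exp_add, Real.exp_log hc]
    exact h2.trans (h1.trans (mul_le_mul_of_nonneg_left h3 hc.le))
  have := Real.exp_le_exp.1 h4
  linarith

noncomputable def psi (β x : ℝ) : ℝ := (max |x| β)⁻¹

theorem psi_nonneg {β : ℝ} (x : ℝ) : 0 ≤ psi β x :=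
  inv_nonneg.2 ((abs_nonneg x).trans (le_max_left _ _))

theorem psi_le {β : ℝ} (hβ : 0 < β) (x : ℝ) : psi β x ≤ β⁻¹ :=
  inv_anti₀ hβ (le_max_right _ _)

theorem psi_near {β x y : ℝ} (hβ : 0 < β) (h : |x - y| ≤ β) : psi β x ≤ 2 * psi β y := by
  unfold psi
  have h1 : 0 < max |x| β := hβ.trans_le (le_max_right _ _)
  have h2 : 0 < max |y| β := hβ.trans_le (le_max_right _ _)
  rw [← div_eq_mul_inv, inv_eq_one_div, div_le_div_iff₀ h1 h2, one_mul]
  have h3 := le_max_left |x| β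
  have h4 := le_max_right |x| β
  have h5 : |y| ≤ |x| + β := by
    have := abs_sub_abs_le_abs_sub y x
    rw [abs_sub_comm] at this
    linarith
  exact max_le (by linarith) (by linarith)

theorem psi_integrable {Ω : Type*} [MeasurableSpace Ω] (μ : Measure Ω) [IsProbabilityMeasure μ]
    (X : Ω → ℝ) (hX : Measurable X) {β : ℝ} (hβ : 0 < β) :
    Integrable (fun ω => psi β (X ω)) μ := by
  refine Integrable.of_bound (C := β⁻¹) ?_ (ae_of_all _ fun ω => ?_)
  · unfold psi
    exact Measurable.aestronglyMeasurable (by fun_prop)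
  · rw [Real.norm_eq_abs, abs_of_nonneg (psi_nonneg _)]
    exact psi_le hβ _

theorem psi_integral {Ω : Type*} [MeasurableSpace Ω] (μ : Measure Ω) [IsProbabilityMeasure μ]
    (X : Ω → ℝ) (hX : Measurable X) (hs : ∀ ε, 0 < ε → μ.real {ω | |X ω| ≤ ε} ≤ 2 * ε) (J : ℕ) :
    ∫ ω, psi ((1 / 2) ^ J) (X ω) ∂μ ≤ 1 + 4 * J := by
  induction J with
  | zero =>
    have : ∫ ω, psi ((1 / 2) ^ 0) (X ω) ∂μ ≤ ∫ _ω, (1 : ℝ) ∂μ :=
      integral_mono (psi_integrable μ X hX (by positivity)) (integrable_const _) fun ω => by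
        simpa using psi_le (β := 1) one_pos (X ω)
    simpa using this
  | succ J ih =>
    have hm : MeasurableSet {ω | |X ω| ≤ (1 / 2 : ℝ) ^ J} :=
      measurableSet_le (by fun_prop) (by fun_prop)
    have hi : Integrable (fun ω => indicator {ω | |X ω| ≤ (1 / 2 : ℝ) ^ J}
        (fun _ => (2 : ℝ) ^ (J + 1)) ω) μ := (integrable_const _).indicator hm
    have h1 : ∫ ω, psi ((1 / 2) ^ (J + 1)) (X ω) ∂μ ≤ ∫ ω, (psi ((1 / 2) ^ J) (X ω) +
        indicator {ω | |X ω| ≤ (1 / 2 : ℝ) ^ J} (fun _ => (2 : ℝ) ^ (J + 1)) ω) ∂μ := by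
      refine integral_mono (psi_integrable μ X hX (by positivity))
        ((psi_integrable μ X hX (by positivity)).add hi) fun ω => ?_
      by_cases h : |X ω| ≤ (1 / 2 : ℝ) ^ J
      · simp only
        rw [indicator_of_mem (by exact h)]
        have := psi_le (β := (1 / 2 : ℝ) ^ (J + 1)) (by positivity) (X ω)
        rw [one_div, inv_pow, inv_inv] at this
        rw [one_div, inv_pow]
        linarith [psi_nonneg (β := 2⁻¹ ^ J) (X ω)]
      · simp only
        rw [indicator_of_notMem (by exact h), add_zero]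
        push Not at h
        have h2 : (1 / 2 : ℝ) ^ (J + 1) ≤ (1 / 2) ^ J :=
          pow_le_pow_of_le_one (by norm_num) (by norm_num) (Nat.le_succ _)
        unfold psi
        rw [max_eq_left h.le, max_eq_left (h2.trans h.le)]
    rw [integral_add (psi_integrable μ X hX (by positivity)) hi, integral_indicator_const _ hm,
      smul_eq_mul] at h1
    have h2 := hs ((1 / 2) ^ J) (by positivity)
    have h3 : (2 : ℝ) * (1 / 2) ^ J * 2 ^ (J + 1) = 4 := by
      rw [one_div, inv_pow, pow_succ]; field_simp; norm_num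
    have h4 := mul_le_mul_of_nonneg_right h2 (show (0 : ℝ) ≤ 2 ^ (J + 1) by positivity)
    push_cast
    linarith

theorem small_ball {n : ℕ} (η : E n) (hη : 1 / 6 ≤ ‖η‖ ^ 2) (c ε : ℝ) (hε : 0 < ε) :
    (stdGaussian (E n)).real {w | |c + ⟪η, w⟫| ≤ ε} ≤ 2 * ε := by
  have h1 := IsGaussian.map_eq_gaussianReal (μ := stdGaussian (E n)) (innerSL ℝ η)
  rw [variance_dual_stdGaussian, innerSL_apply_norm] at h1
  have hv : (‖η‖ ^ 2).toNNReal ≠ 0 := by
    rw [ne_eq, Real.toNNReal_eq_zero]; linarith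
  have h2 : {w : E n | |c + ⟪η, w⟫| ≤ ε} = (innerSL ℝ η) ⁻¹' Icc (-ε - c) (ε - c) := by
    ext w
    simp only [mem_ofPred_eq, mem_preimage, innerSL_apply_apply, mem_Icc, abs_le]
    constructor <;> rintro ⟨h, h'⟩ <;> constructor <;> linarith
  rw [measureReal_def, h2, ← Measure.map_apply (by fun_prop) measurableSet_Icc, h1,
    gaussianReal_apply _ hv]
  refine ENNReal.toReal_le_of_le_ofReal (by positivity) ?_
  calc _ ≤ ∫⁻ _x in Icc (-ε - c) (ε - c), 1 := by
        refine lintegral_mono fun x => ?_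
        rw [gaussianPDF, ENNReal.ofReal_le_one, gaussianPDFReal]
        have h3 : 1 ≤ √(2 * Real.pi * (‖η‖ ^ 2).toNNReal) := by
          rw [Real.one_le_sqrt, Real.coe_toNNReal _ (sq_nonneg _)]
          nlinarith [Real.pi_gt_three]
        refine mul_le_one₀ (inv_le_one_of_one_le₀ h3) (Real.exp_pos _).le ?_
        rw [Real.exp_le_one_iff]
        exact div_nonpos_of_nonpos_of_nonneg (neg_nonpos.2 (sq_nonneg _)) (by positivity)
    _ = _ := by
        rw [setLIntegral_const, one_mul, Real.volume_Icc]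
        congr 1; ring

theorem integral_norm_sq {n : ℕ} : Integrable (fun w : E n => ‖w‖ ^ 2) (stdGaussian (E n)) ∧
    ∫ w, ‖w‖ ^ 2 ∂(stdGaussian (E n)) = n := by
  have hm : ∀ l : Fin n, MemLp (fun w : E n => w l) 2 (stdGaussian (E n)) := fun l =>
    IsGaussian.memLp_dual (stdGaussian (E n)) (EuclideanSpace.proj l) 2 (by simp)
  have hi : ∀ l : Fin n, Integrable (fun w : E n => w l ^ 2) (stdGaussian (E n)) :=
    fun l => (hm l).integrable_sq
  have he : (fun w : E n => ‖w‖ ^ 2) = fun w => ∑ l, w l ^ 2 := by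
    ext w; rw [EuclideanSpace.real_norm_sq_eq]
  rw [he]
  refine ⟨integrable_finsetSum _ fun l _ => hi l, ?_⟩
  rw [integral_finsetSum _ fun l _ => hi l]
  have : ∀ l : Fin n, ∫ w : E n, w l ^ 2 ∂(stdGaussian (E n)) = 1 := by
    intro l
    have h1 := variance_dual_stdGaussian (E := E n) (innerSL ℝ (EuclideanSpace.single l (1 : ℝ)))
    have h2 := integral_strongDual_stdGaussian (E := E n)
      (innerSL ℝ (EuclideanSpace.single l (1 : ℝ)))
    rw [variance_of_integral_eq_zero (by fun_prop) h2, innerSL_apply_norm] at h1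
    simpa [EuclideanSpace.inner_single_left] using h1
  simp [this]

noncomputable def proj {n : ℕ} (t u : Fin n) (x : E n) : E n :=
  WithLp.toLp 2 fun l => if l = t ∨ l = u then 0 else x l

theorem proj_inner {n : ℕ} (t u : Fin n) (x y : E n) : ⟪x, proj t u y⟫ = ⟪proj t u x, y⟫ := by
  simp only [PiLp.inner_apply, proj]
  refine Finset.sum_congr rfl fun l _ => ?_
  split_ifs <;> simp

theorem proj_norm_le {n : ℕ} (t u : Fin n) (x : E n) : ‖proj t u x‖ ≤ ‖x‖ := by
  refine le_of_sq_le_sq ?_ (norm_nonneg _)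
  rw [EuclideanSpace.real_norm_sq_eq, EuclideanSpace.real_norm_sq_eq]
  refine Finset.sum_le_sum fun l _ => ?_
  simp only [proj]
  split_ifs
  · simpa using sq_nonneg _
  · exact le_rfl

theorem proj_sub {n : ℕ} (t u : Fin n) (x y : E n) : proj t u (x - y) = proj t u x - proj t u y := by
  ext l
  simp only [proj, PiLp.sub_apply]
  split_ifs <;> simp

theorem exists_vectors {n : ℕ} (hn : 0 < n) (t u : Fin n) (J M N : ℕ) (hM : 0 < M) (c : ℕ → E n)
    (δ Γ R : ℝ) (hR0 : 0 ≤ R) (hR : R ^ 2 = 4 * n) (hc : ∀ i < N, ‖c i‖ ≤ Γ) (hδ0 : 0 ≤ δ)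
    (hδ : (n : ℝ) ≤ (δ * M) ^ 2)
    (hδ1 : δ ≤ 1 / 12) (hδ2 : δ * (Γ + R) ≤ (1 / 2) ^ J)
    (hN : (2 : ℝ) ^ J * (n * (2 * M + 1)) ≤ N) :
    ∃ w : ℕ → E n, (∀ i, w i t = 0 ∧ w i u = 0 ∧ ‖w i‖ ≤ R) ∧ ∀ ξ : E n, ‖ξ‖ = 1 →
      1 / 2 ≤ ‖proj t u ξ‖ →
      ∑ i ∈ Finset.range N, psi ((1 / 2) ^ J) ⟪ξ, c i + w i⟫ ≤ 12 * (1 + 4 * J) * N := by
  classical
  set β : ℝ := (1 / 2) ^ J with hβdef
  have hβ : 0 < β := by positivity
  have hn' : (0 : ℝ) < n := by exact_mod_cast hn
  have hM' : (0 : ℝ) < M := by exact_mod_cast hM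
  let pt : (Fin n → ℤ) → E n := fun k => WithLp.toLp 2 fun l => (k l : ℝ) / M
  let s0 : Finset (Fin n → ℤ) := Fintype.piFinset fun _ => Finset.Icc (-(M : ℤ)) M
  let s := s0.filter fun k => 1 / 6 ≤ ‖proj t u (pt k)‖ ^ 2
  have hmeas : ∀ i k, Measurable fun w : E n => ⟪pt k, c i⟫ + ⟪proj t u (pt k), w⟫ := by
    intro i k; fun_prop
  obtain ⟨ω, hω, hb⟩ := greedy (stdGaussian (E n)) (fun w => ‖w‖ ^ 2 / (4 * n))
    (integral_norm_sq.1.div_const _) (fun w => by positivity)
    (by rw [integral_div, integral_norm_sq.2, div_le_iff₀ (by positivity)]; linarith)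
    s (fun i k w => β * psi β (⟪pt k, c i⟫ + ⟪proj t u (pt k), w⟫))
    (fun i k => (psi_integrable _ _ (hmeas i k) hβ).const_mul _)
    (fun i k w => mul_nonneg hβ.le (psi_nonneg _))
    (fun i k w => by
      have := mul_le_mul_of_nonneg_left (psi_le hβ (⟪pt k, c i⟫ + ⟪proj t u (pt k), w⟫)) hβ.le
      rwa [mul_inv_cancel₀ hβ.ne'] at this)
    (β * (1 + 4 * J)) (by positivity)
    (fun i k hk => by
      rw [integral_const_mul]
      exact mul_le_mul_of_nonneg_left (psi_integral _ _ (hmeas i k)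
        (fun ε hε => small_ball _ (Finset.mem_filter.1 hk).2 _ ε hε) J) hβ.le) N
  have hnorm : ∀ i, ‖proj t u (ω i)‖ ≤ R := by
    intro i
    refine (proj_norm_le t u _).trans (le_of_sq_le_sq ?_ hR0)
    have := hω i
    rwa [div_le_one (by positivity), ← hR] at this
  refine ⟨fun i => proj t u (ω i), fun i => ⟨by simp [proj], by simp [proj], hnorm i⟩,
    fun ξ hξ hP => ?_⟩
  let k : Fin n → ℤ := fun l => ⌊ξ l * M⌋
  have hξl : ∀ l, |ξ l| ≤ 1 := fun l => by
    have := PiLp.norm_apply_le ξ l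
    rwa [hξ, Real.norm_eq_abs] at this
  have hk0 : k ∈ s0 := by
    refine Fintype.mem_piFinset.2 fun l => Finset.mem_Icc.2 ⟨?_, ?_⟩
    · refine Int.le_floor.2 ?_
      push_cast
      nlinarith [(abs_le.1 (hξl l)).1]
    · refine Int.floor_le_iff.2 ?_
      push_cast
      nlinarith [(abs_le.1 (hξl l)).2]
  have hdist : ‖ξ - pt k‖ ≤ δ := by
    refine le_of_sq_le_sq ?_ hδ0
    rw [EuclideanSpace.real_norm_sq_eq]
    have h1 : ∀ l, (ξ - pt k) l ^ 2 ≤ (1 / M) ^ 2 := by
      intro l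
      have e : (ξ - pt k) l = (ξ l * M - ⌊ξ l * M⌋) / M := by
        simp only [PiLp.sub_apply, pt, k]
        field_simp
      rw [e]
      have h2 := Int.floor_le (ξ l * M)
      have h3 := Int.lt_floor_add_one (ξ l * M)
      refine pow_le_pow_left₀ (div_nonneg (by linarith) hM'.le) ?_ 2
      exact div_le_div_of_nonneg_right (by linarith) hM'.le
    calc _ ≤ ∑ _l : Fin n, (1 / (M : ℝ)) ^ 2 := Finset.sum_le_sum fun l _ => h1 l
      _ = n / M ^ 2 := by simp; field_simp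
      _ ≤ δ ^ 2 := by rw [div_le_iff₀ (by positivity), ← mul_pow]; exact hδ
  have hk : k ∈ s := by
    refine Finset.mem_filter.2 ⟨hk0, ?_⟩
    have h1 := proj_norm_le t u (ξ - pt k)
    rw [proj_sub] at h1
    have h2 := norm_sub_norm_le (proj t u ξ) (proj t u (pt k))
    have h3 : 5 / 12 ≤ ‖proj t u (pt k)‖ := by linarith
    nlinarith
  have h1 := hb k hk
  rw [← Finset.mul_sum] at h1
  have hcard : Real.log s.card ≤ n * (2 * M + 1) := by
    have h2 : s.card ≤ (2 * M + 1) ^ n := by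
      refine (Finset.card_filter_le _ _).trans ?_
      rw [Fintype.card_piFinset]
      simp only [Int.card_Icc, Finset.prod_const, Finset.card_univ, Fintype.card_fin]
      refine le_of_eq (congrArg (· ^ n) ?_)
      omega
    have h3 : (0 : ℝ) < s.card := by exact_mod_cast Finset.card_pos.2 ⟨k, hk⟩
    have h4 : (s.card : ℝ) ≤ (2 * M + 1) ^ n := by exact_mod_cast h2
    refine (Real.log_le_log h3 h4).trans ?_
    rw [Real.log_pow]
    refine mul_le_mul_of_nonneg_left ?_ hn'.le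
    linarith [Real.log_le_sub_one_of_pos (show (0 : ℝ) < 2 * M + 1 by positivity)]
  have h2 : ∑ i ∈ Finset.range N, psi β ⟪ξ, c i + proj t u (ω i)⟫ ≤
      2 * ∑ i ∈ Finset.range N, psi β (⟪pt k, c i⟫ + ⟪proj t u (pt k), ω i⟫) := by
    rw [Finset.mul_sum]
    refine Finset.sum_le_sum fun i hi => psi_near hβ ?_
    rw [← proj_inner, ← inner_add_right, ← inner_sub_left]
    refine (abs_real_inner_le_norm _ _).trans (le_trans ?_ hδ2)
    refine mul_le_mul hdist ((norm_add_le _ _).trans ?_) (norm_nonneg _) hδ0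
    exact add_le_add (hc i (Finset.mem_range.1 hi)) (hnorm i)
  have h3 : n * (2 * (M : ℝ) + 1) ≤ β * N := by
    have : β * 2 ^ J = 1 := by rw [hβdef, one_div, inv_pow]; field_simp
    have h4 := mul_le_mul_of_nonneg_left hN hβ.le
    rwa [← mul_assoc, this, one_mul] at h4
  have h4 : ∑ i ∈ Finset.range N, psi β (⟪pt k, c i⟫ + ⟪proj t u (pt k), ω i⟫) ≤
      2 * N + 4 * (1 + 4 * J) * N := by
    refine le_of_mul_le_mul_left ?_ hβ
    nlinarith
  have h5 : (0 : ℝ) ≤ J * N := by positivity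
  have h6 : (0 : ℝ) ≤ N := by positivity
  nlinarith

end Pool.Agent.Lib.MP_ad3614_gt
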